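import Mathlib

/-!
Symbol calculus in the thin shell `| |x|^2 - 1 | ≤ 1/(4 m)` of a finite dimensional inner product
space: families `F i` of smooth functions, with scale `s i ≥ 1`, all of whose derivatives of order
`j ≤ n` are bounded by `C (s i)^(k + j)` on the shell of `i`.
-/

open Set Filter Topology
open scoped ContDiff

noncomputable section

namespace Pool.Agent.Lib_MP_a29272_n.Gen

variable {E : Type*} [NormedAddCommGroup E] [InnerProductSpace ℝ E]
variable {ι : Type*} {s : ι → ℝ}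

/-- the shell -/
def Shell (E : Type*) [NormedAddCommGroup E] (M : ℝ) : Set E :=
  {x : E | |‖x‖ ^ 2 - 1| ≤ 1 / (4 * M)}

omit [InnerProductSpace ℝ E] in
theorem mem_big {M : ℝ} (hM : 1 ≤ M) {x : E} (hx : x ∈ Shell E M) :
    x ∈ Metric.closedBall (0 : E) 2 := by
  have h1 : (1 : ℝ) / (4 * M) ≤ 1 := by
    rw [div_le_one (by positivity)]; linarith
  have h2 := (abs_le.mp (le_trans hx h1)).2
  rw [mem_closedBall_zero_iff]
  nlinarith [norm_nonneg x]

variable {G : Type*} [NormedAddCommGroup G] [NormedSpace ℝ G]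
variable {G' : Type*} [NormedAddCommGroup G'] [NormedSpace ℝ G']

/-- symbols of order `k`, with control of `n` derivatives -/
def Sy (s : ι → ℝ) (n k : ℕ) (F : ι → E → G) : Prop :=
  ∃ C : ℝ, 0 ≤ C ∧ ∀ i : ι, ContDiff ℝ ∞ (F i) ∧
    ∀ j : ℕ, j ≤ n → ∀ x ∈ Shell E (s i), ‖iteratedFDeriv ℝ j (F i) x‖ ≤ C * (s i) ^ (k + j)

theorem Sy.contDiff {n k : ℕ} {F : ι → E → G} (h : Sy s n k F) (i : ι) :
    ContDiff ℝ ∞ (F i) := by
  obtain ⟨C, -, h⟩ := h
  exact (h i).1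

theorem nat_le_inf (j : ℕ) : ((j : ℕ) : WithTop ℕ∞) ≤ (∞ : WithTop ℕ∞) := by
  exact_mod_cast le_top

theorem Sy.add {n k : ℕ} {F H : ι → E → G} (hF : Sy s n k F) (hH : Sy s n k H) :
    Sy s n k (fun i x => F i x + H i x) := by
  obtain ⟨C, hC, hF⟩ := hF
  obtain ⟨D, hD, hH⟩ := hH
  refine ⟨C + D, by positivity, fun i => ⟨(hF i).1.add (hH i).1, fun j hj x hx => ?_⟩⟩
  have e : iteratedFDeriv ℝ j (fun x => F i x + H i x) x
      = iteratedFDeriv ℝ j (F i) x + iteratedFDeriv ℝ j (H i) x :=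
    iteratedFDeriv_add_apply (((hF i).1.of_le (nat_le_inf j)).contDiffAt)
      (((hH i).1.of_le (nat_le_inf j)).contDiffAt)
  rw [e, add_mul]
  exact (norm_add_le _ _).trans (add_le_add ((hF i).2 j hj x hx) ((hH i).2 j hj x hx))

/-- multiplication by bounded scalars -/
theorem Sy.bdd_smul {n k : ℕ} {F : ι → E → G} (hF : Sy s n k F) {c : ι → ℝ} {B : ℝ} (hB : 0 ≤ B)
    (hc : ∀ i, |c i| ≤ B) : Sy s n k (fun i x => c i • F i x) := by
  obtain ⟨C, hC, hF⟩ := hF
  refine ⟨B * C, by positivity, fun i => ⟨(hF i).1.const_smul (c i), fun j hj x hx => ?_⟩⟩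
  have e : iteratedFDeriv ℝ j (fun x => c i • F i x) x = c i • iteratedFDeriv ℝ j (F i) x :=
    iteratedFDeriv_const_smul_apply' (((hF i).1.of_le (nat_le_inf j)).contDiffAt)
  rw [e, norm_smul, Real.norm_eq_abs, mul_assoc]
  exact mul_le_mul (hc i) ((hF i).2 j hj x hx) (norm_nonneg _) hB

theorem Sy.const_smul {n k : ℕ} {F : ι → E → G} (hF : Sy s n k F) (c : ℝ) :
    Sy s n k (fun i x => c • F i x) :=
  hF.bdd_smul (abs_nonneg c) (fun _ => le_rfl)

theorem Sy.div_s (hs : ∀ i, 1 ≤ s i) {n k : ℕ} {F : ι → E → G} (hF : Sy s n (k + 1) F) :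
    Sy s n k (fun i x => (1 / (s i)) • F i x) := by
  obtain ⟨C, hC, hF⟩ := hF
  refine ⟨C, hC, fun i => ⟨(hF i).1.const_smul _, fun j hj x hx => ?_⟩⟩
  have e : iteratedFDeriv ℝ j (fun x => (1 / (s i)) • F i x) x
      = (1 / (s i)) • iteratedFDeriv ℝ j (F i) x :=
    iteratedFDeriv_const_smul_apply' (((hF i).1.of_le (nat_le_inf j)).contDiffAt)
  have hM0 : (0 : ℝ) < s i := lt_of_lt_of_le one_pos (hs i)
  rw [e, norm_smul, Real.norm_eq_abs, abs_of_pos (by positivity)]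
  calc (1 / (s i)) * ‖iteratedFDeriv ℝ j (F i) x‖
      ≤ (1 / (s i)) * (C * (s i) ^ (k + 1 + j)) :=
        mul_le_mul_of_nonneg_left ((hF i).2 j hj x hx) (by positivity)
    _ = C * (s i) ^ (k + j) := by
        rw [show k + 1 + j = (k + j) + 1 by ring, pow_succ]
        field_simp

theorem Sy.smul (hs : ∀ i, 1 ≤ s i) {n k l : ℕ} {f : ι → E → ℝ} {F : ι → E → G}
    (hf : Sy s n k f) (hF : Sy s n l F) :
    Sy s n (k + l) (fun i x => f i x • F i x) := by
  obtain ⟨C, hC, hf⟩ := hf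
  obtain ⟨D, hD, hF⟩ := hF
  refine ⟨2 ^ n * (C * D), by positivity, fun i =>
    ⟨(hf i).1.smul (hF i).1, fun j hj x hx => ?_⟩⟩
  have hM0 : (1 : ℝ) ≤ s i := hs i
  have hM1 : (0 : ℝ) < s i := lt_of_lt_of_le one_pos (hs i)
  have h := norm_iteratedFDeriv_smul_le (hf i).1 (hF i).1 x (nat_le_inf j)
  refine h.trans ?_
  calc ∑ a ∈ Finset.range (j + 1), (j.choose a : ℝ) * ‖iteratedFDeriv ℝ a (f i) x‖ *
        ‖iteratedFDeriv ℝ (j - a) (F i) x‖
      ≤ ∑ a ∈ Finset.range (j + 1), (j.choose a : ℝ) * ((C * D) * (s i) ^ (k + l + j)) := by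
        refine Finset.sum_le_sum fun a hi => ?_
        have hi' : a ≤ j := Nat.lt_succ_iff.mp (Finset.mem_range.mp hi)
        rw [mul_assoc]
        refine mul_le_mul_of_nonneg_left ?_ (by positivity)
        calc ‖iteratedFDeriv ℝ a (f i) x‖ * ‖iteratedFDeriv ℝ (j - a) (F i) x‖
            ≤ (C * (s i) ^ (k + a)) * (D * (s i) ^ (l + (j - a))) :=
              mul_le_mul ((hf i).2 a (hi'.trans hj) x hx)
                ((hF i).2 (j - a) ((Nat.sub_le j a).trans hj) x hx) (norm_nonneg _)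
                (by positivity)
          _ = (C * D) * (s i) ^ (k + l + j) := by
              rw [show k + l + j = (k + a) + (l + (j - a)) by omega, pow_add]
              ring
    _ = 2 ^ j * (C * D) * (s i) ^ (k + l + j) := by
        rw [← Finset.sum_mul]
        have : ∑ a ∈ Finset.range (j + 1), (j.choose a : ℝ) = 2 ^ j := by
          exact_mod_cast Nat.sum_range_choose j
        rw [this]; ring
    _ ≤ 2 ^ n * (C * D) * (s i) ^ (k + l + j) := by
        refine mul_le_mul_of_nonneg_right ?_ (by positivity)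
        refine mul_le_mul_of_nonneg_right ?_ (by positivity)
        exact pow_le_pow_right₀ (by norm_num) hj

theorem Sy.clm_comp {n k : ℕ} {F : ι → E → G} (hF : Sy s n k F) (L : G →L[ℝ] G') :
    Sy s n k (fun i x => L (F i x)) := by
  obtain ⟨C, hC, hF⟩ := hF
  refine ⟨‖L‖ * C, by positivity, fun i =>
    ⟨L.contDiff.comp (hF i).1, fun j hj x hx => ?_⟩⟩
  have h : ‖iteratedFDeriv ℝ j (L ∘ (F i)) x‖ ≤ ‖L‖ * ‖iteratedFDeriv ℝ j (F i) x‖ :=
    L.norm_iteratedFDeriv_comp_left ((hF i).1.contDiffAt) (nat_le_inf j)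
  refine h.trans ?_
  rw [mul_assoc]
  exact mul_le_mul_of_nonneg_left ((hF i).2 j hj x hx) (norm_nonneg L)

theorem Sy.fderiv {n k : ℕ} {F : ι → E → G} (hF : Sy s (n + 1) k F) :
    Sy s n (k + 1) (fun i x => _root_.fderiv ℝ (F i) x) := by
  obtain ⟨C, hC, hF⟩ := hF
  refine ⟨C, hC, fun i => ⟨(hF i).1.fderiv_right (m := ∞) (by simp), fun j hj x hx => ?_⟩⟩
  have h : ‖iteratedFDeriv ℝ j (_root_.fderiv ℝ (F i)) x‖ = ‖iteratedFDeriv ℝ (j + 1) (F i) x‖ :=
    norm_iteratedFDeriv_fderiv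
  change ‖iteratedFDeriv ℝ j (_root_.fderiv ℝ (F i)) x‖ ≤ _
  rw [h, show k + 1 + j = k + (j + 1) by ring]
  exact (hF i).2 (j + 1) (by omega) x hx

theorem Sy.mono {n n' k : ℕ} (hn : n' ≤ n) {F : ι → E → G} (hF : Sy s n k F) : Sy s n' k F := by
  obtain ⟨C, hC, hF⟩ := hF
  exact ⟨C, hC, fun i => ⟨(hF i).1, fun j hj x hx => (hF i).2 j (hj.trans hn) x hx⟩⟩

section finite

variable [FiniteDimensional ℝ E]

/-- derivatives of a fixed smooth function are bounded on the shells -/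
theorem fixed_bound {F : E → G} (hF : ContDiff ℝ ∞ F) (n : ℕ) :
    ∃ C : ℝ, 0 ≤ C ∧ ∀ M : ℝ, 1 ≤ M → ∀ j : ℕ, j ≤ n → ∀ x ∈ Shell E M,
      ‖iteratedFDeriv ℝ j F x‖ ≤ C := by
  have : ProperSpace E := FiniteDimensional.proper_real E
  have hb : ∀ j : ℕ, ∃ C : ℝ, ∀ x ∈ Metric.closedBall (0 : E) 2, ‖iteratedFDeriv ℝ j F x‖ ≤ C := by
    intro j
    have hc : Continuous fun x => ‖iteratedFDeriv ℝ j F x‖ :=
      (hF.continuous_iteratedFDeriv (nat_le_inf j)).norm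
    obtain ⟨C, hC⟩ := (isCompact_closedBall (0 : E) 2).bddAbove_image hc.continuousOn
    exact ⟨C, fun x hx => hC ⟨x, hx, rfl⟩⟩
  choose C hC using hb
  refine ⟨∑ j ∈ Finset.range (n + 1), |C j|, by positivity, fun M hM j hj x hx => ?_⟩
  refine (hC j x (mem_big hM hx)).trans ((le_abs_self _).trans ?_)
  exact Finset.single_le_sum (f := fun j => |C j|) (fun i _ => abs_nonneg _)
    (Finset.mem_range.mpr (by omega))

/-- a fixed smooth function is a symbol of order 0 -/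
theorem Sy.of_const (hs : ∀ i, 1 ≤ s i) {F : E → G} (hF : ContDiff ℝ ∞ F) (n : ℕ) :
    Sy s n 0 (fun _ x => F x) := by
  obtain ⟨C, hC, h⟩ := fixed_bound hF n
  refine ⟨C, hC, fun i => ⟨hF, fun j hj x hx => ?_⟩⟩
  calc ‖iteratedFDeriv ℝ j F x‖ ≤ C * 1 := by rw [mul_one]; exact h (s i) (hs i) j hj x hx
    _ ≤ _ := mul_le_mul_of_nonneg_left (one_le_pow₀ (hs i)) hC

/-- composition of a fixed smooth function of one variable with `m (|x|^2 - 1)` -/
theorem Sy.cutoff (hs : ∀ i, 1 ≤ s i) {psi : ℝ → ℝ} (hpsi : ContDiff ℝ ∞ psi) (n : ℕ) :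
    Sy s n 0 (fun i (x : E) => psi (s i * (‖x‖ ^ 2 - 1))) := by
  have hg : ContDiff ℝ ∞ (fun x : E => ‖x‖ ^ 2 - 1) := (contDiff_norm_sq ℝ).sub contDiff_const
  obtain ⟨D, hD, h1⟩ := fixed_bound hg n
  have hb : ∀ j : ℕ, ∃ C : ℝ, ∀ t ∈ Icc (-1 : ℝ) 1, ‖iteratedFDeriv ℝ j psi t‖ ≤ C := by
    intro j
    have hc : Continuous fun x => ‖iteratedFDeriv ℝ j psi x‖ :=
      (hpsi.continuous_iteratedFDeriv (nat_le_inf j)).norm
    obtain ⟨C, hC⟩ := (isCompact_Icc (a := (-1 : ℝ)) (b := 1)).bddAbove_image hc.continuousOn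
    exact ⟨C, fun x hx => hC ⟨x, hx, rfl⟩⟩
  choose C hC using hb
  set K : ℝ := ∑ j ∈ Finset.range (n + 1), |C j| with hK
  have hK0 : 0 ≤ K := by rw [hK]; positivity
  set D' : ℝ := D + 1 with hD'
  have hD1 : 1 ≤ D' := by rw [hD']; linarith
  refine ⟨(n.factorial : ℝ) * K * D' ^ n, by positivity, fun i =>
    ⟨hpsi.comp (hg.const_smul (s i)), fun j hj x hx => ?_⟩⟩
  have hM0 : (1 : ℝ) ≤ s i := hs i
  have hM1 : (0 : ℝ) < s i := lt_of_lt_of_le one_pos (hs i)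
  have hx' : s i * (‖x‖ ^ 2 - 1) ∈ Icc (-1 : ℝ) 1 := by
    have h2 : |‖x‖ ^ 2 - 1| ≤ 1 / (4 * s i) := hx
    have h3 : |s i * (‖x‖ ^ 2 - 1)| ≤ 1 := by
      rw [abs_mul, abs_of_pos hM1]
      calc s i * |‖x‖ ^ 2 - 1| ≤ s i * (1 / (4 * s i)) :=
            mul_le_mul_of_nonneg_left h2 hM1.le
        _ = 1 / 4 := by field_simp
        _ ≤ 1 := by norm_num
    exact abs_le.mp h3
  -- the inner function
  have hin : ∀ a, 1 ≤ a → a ≤ j →
      ‖iteratedFDeriv ℝ a (fun x : E => s i • (‖x‖ ^ 2 - 1)) x‖ ≤ (D' * s i) ^ a := by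
    intro a hi1 hi
    have e : iteratedFDeriv ℝ a (fun x : E => s i • (‖x‖ ^ 2 - 1)) x
        = s i • iteratedFDeriv ℝ a (fun x : E => ‖x‖ ^ 2 - 1) x :=
      iteratedFDeriv_const_smul_apply' ((hg.of_le (nat_le_inf a)).contDiffAt)
    rw [e, norm_smul, Real.norm_eq_abs, abs_of_pos hM1]
    have h4 : (1 : ℝ) ≤ D' * s i := by nlinarith
    calc s i * ‖iteratedFDeriv ℝ a (fun x : E => ‖x‖ ^ 2 - 1) x‖
        ≤ s i * D := mul_le_mul_of_nonneg_left (h1 (s i) (hs i) a (hi.trans hj) x hx) hM1.le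
      _ ≤ D' * s i := by rw [hD']; nlinarith
      _ = (D' * s i) ^ 1 := (pow_one _).symm
      _ ≤ (D' * s i) ^ a := pow_le_pow_right₀ h4 hi1
  have hout : ∀ a, a ≤ j → ‖iteratedFDeriv ℝ a psi (s i • (‖x‖ ^ 2 - 1))‖ ≤ K := by
    intro a hi
    refine (hC a _ hx').trans ((le_abs_self _).trans ?_)
    rw [hK]
    exact Finset.single_le_sum (f := fun j => |C j|) (fun i _ => abs_nonneg _)
      (Finset.mem_range.mpr (by omega))
  have h5 : ‖iteratedFDeriv ℝ j (psi ∘ fun x : E => s i • (‖x‖ ^ 2 - 1)) x‖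
      ≤ (j.factorial : ℝ) * K * (D' * s i) ^ j :=
    norm_iteratedFDeriv_comp_le (N := ∞) hpsi (hg.const_smul (s i)) (nat_le_inf j) x hout hin
  refine h5.trans ?_
  rw [mul_pow, zero_add, ← mul_assoc]
  refine mul_le_mul_of_nonneg_right ?_ (by positivity)
  have h6 : (j.factorial : ℝ) ≤ n.factorial := by exact_mod_cast Nat.factorial_le hj
  have h7 : D' ^ j ≤ D' ^ n := pow_le_pow_right₀ hD1 hj
  have h8 : (j.factorial : ℝ) * K ≤ n.factorial * K := mul_le_mul_of_nonneg_right h6 hK0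
  exact mul_le_mul h8 h7 (by positivity) (by positivity)

end finite

section gradient

variable [CompleteSpace E]

/-- the inverse of the Riesz map, as a real continuous linear map -/
def dualInv (E : Type*) [NormedAddCommGroup E] [InnerProductSpace ℝ E] [CompleteSpace E] :
    StrongDual ℝ E →L[ℝ] E :=
  LinearMap.mkContinuous
    { toFun := fun f => (InnerProductSpace.toDual ℝ E).symm f
      map_add' := fun f g => by simp
      map_smul' := fun c f => by simp } 1 (fun f => by simp)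

theorem Sy.gradient {n k : ℕ} {F : ι → E → ℝ} (hF : Sy s (n + 1) k F) :
    Sy s n (k + 1) (fun i x => _root_.gradient (F i) x) :=
  hF.fderiv.clm_comp (dualInv E)

end gradient

end Pool.Agent.Lib_MP_a29272_n.Gen
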