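import Pool.Agent.Lib_MP_a29272_n.ThetaG
import Pool.Agent.Lib_MP_a29272_s.PBoundN

/-!
The family `P_M(x) = Re (|y| + i |z|)^(2M)`, `z = (x_i, x_j)`, `y` the other coordinates, satisfies
`GoodFamily` with `J` the rotation generator of the plane of `z`.
-/

open Set Filter Topology
open scoped ContDiff RealInnerProductSpace

noncomputable section

namespace Pool.Agent.Lib_MP_a29272_n.Gen

open Pool.Agent.LibMPa29272s (PN PN_contDiff PN_bound PN_euler PN_pair)

variable {ι : Type} [Fintype ι] [DecidableEq ι]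

/-- the rotation generator in the plane of the coordinates `i`, `j` -/
def Jrot (i j : ι) : EuclideanSpace ℝ ι →L[ℝ] EuclideanSpace ℝ ι :=
  (EuclideanSpace.proj i : EuclideanSpace ℝ ι →L[ℝ] ℝ).smulRight (EuclideanSpace.single j 1) -
    (EuclideanSpace.proj j : EuclideanSpace ℝ ι →L[ℝ] ℝ).smulRight (EuclideanSpace.single i 1)

theorem Jrot_apply (i j : ι) (x : EuclideanSpace ℝ ι) :
    Jrot i j x = x i • EuclideanSpace.single j 1 - x j • EuclideanSpace.single i 1 := rfl

theorem inner_Jrot (i j : ι) (x y : EuclideanSpace ℝ ι) :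
    ⟪y, Jrot i j x⟫ = x i * y j - x j * y i := by
  rw [Jrot_apply, inner_sub_right, inner_smul_right, inner_smul_right,
    EuclideanSpace.inner_single_right, EuclideanSpace.inner_single_right]
  simp

/-- an even differentiable function has derivative zero -/
lemma deriv_even {h : ℝ → ℝ} {h' : ℝ} (hd : HasDerivAt h h' 0) (he : ∀ t, h (-t) = h t) :
    h' = 0 := by
  have h0 : HasDerivAt h h' (-0) := by simpa using hd
  have h1 : HasDerivAt (fun t => h (-t)) (h' * (-1)) 0 :=
    h0.comp 0 (hasDerivAt_neg 0)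
  have h2 : (fun t => h (-t)) = h := funext he
  rw [h2] at h1
  have := h1.unique hd
  linarith

theorem fderiv_Jrot {i j : ι} (hij : i ≠ j) (M : ℕ) (x : EuclideanSpace ℝ ι) :
    fderiv ℝ (PN {i, j} M) x (Jrot i j x) = 0 := by
  have hd : HasDerivAt (fun t : ℝ => PN {i, j} M (x + t • Jrot i j x))
      (fderiv ℝ (PN {i, j} M) x (Jrot i j x)) 0 := by
    have hP : HasFDerivAt (PN {i, j} M) (fderiv ℝ (PN {i, j} M) x)
        (x + (0 : ℝ) • Jrot i j x) := by
      rw [zero_smul, add_zero]
      exact ((PN_contDiff {i, j} M).differentiable (by simp) x).hasFDerivAt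
    have hl : HasDerivAt (fun t : ℝ => x + t • Jrot i j x) (Jrot i j x) 0 := by
      simpa using ((hasDerivAt_id (0 : ℝ)).smul_const (Jrot i j x)).const_add x
    exact hP.comp_hasDerivAt 0 hl
  refine deriv_even hd (fun t => ?_)
  have hz : ∀ t : ℝ, (x + t • Jrot i j x) i ^ 2 + (x + t • Jrot i j x) j ^ 2
      = (1 + t ^ 2) * (x i ^ 2 + x j ^ 2) := by
    intro t
    have e1 : (x + t • Jrot i j x) i = x i - t * x j := by
      simp [Jrot_apply, hij]
      ring
    have e2 : (x + t • Jrot i j x) j = x j + t * x i := by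
      simp [Jrot_apply, hij.symm]
    rw [e1, e2]
    ring
  have hn : ∀ t : ℝ, ‖x + t • Jrot i j x‖ ^ 2 = ‖x‖ ^ 2 + t ^ 2 * ‖Jrot i j x‖ ^ 2 := by
    intro t
    rw [norm_add_sq_real, inner_smul_right, inner_Jrot, norm_smul, mul_pow, Real.norm_eq_abs,
      sq_abs]
    ring
  rw [PN_pair hij, PN_pair hij, hz, hz, hn, hn]
  simp

theorem goodFamily {i j : ι} (hij : i ≠ j) : GoodFamily (PN {i, j}) (Jrot i j) where
  smooth M := PN_contDiff {i, j} M
  bound := ⟨Real.exp 10, (Real.exp_pos _).le, fun _ hm _ hM _ hj x hx =>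
    PN_bound {i, j} hm hM hj x hx⟩
  euler M x := PN_euler {i, j} M x
  tang M x := by
    have h := fderiv_Jrot hij M x
    rw [← inner_gradient, inner_Jrot] at h
    rw [inner_Jrot]
    linarith

end Pool.Agent.Lib_MP_a29272_n.Gen
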