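import Mathlib

/-! The form `⟪D_e Θ, e⟫` on the unit sphere from the values of `Θ` there. -/

namespace Pool.Agent.Lib_MP_a29272_n

open scoped RealInnerProductSpace

section Form

variable {E : Type} [NormedAddCommGroup E] [InnerProductSpace ℝ E]

/-- three orthonormal vectors -/
structure Ortho (ζ F η : E) : Prop where
  n1 : ⟪ζ, ζ⟫ = 1
  n2 : ⟪F, F⟫ = 1
  n3 : ⟪η, η⟫ = 1
  o12 : ⟪ζ, F⟫ = 0
  o13 : ⟪ζ, η⟫ = 0
  o23 : ⟪F, η⟫ = 0

/-- the combination with given coordinates -/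
noncomputable def vec3 (ζ F η : E) (A B C : ℝ) : E := A • ζ + B • F + C • η

theorem Ortho.inner_vec3 {ζ F η : E} (h : Ortho ζ F η) (A B C A' B' C' : ℝ) :
    ⟪vec3 ζ F η A B C, vec3 ζ F η A' B' C'⟫ = A * A' + B * B' + C * C' := by
  have o21 : ⟪F, ζ⟫ = 0 := by rw [real_inner_comm]; exact h.o12
  have o31 : ⟪η, ζ⟫ = 0 := by rw [real_inner_comm]; exact h.o13
  have o32 : ⟪η, F⟫ = 0 := by rw [real_inner_comm]; exact h.o23
  simp only [vec3, inner_add_left, inner_add_right, real_inner_smul_left, real_inner_smul_right,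
    h.n1, h.n2, h.n3, h.o12, h.o13, h.o23, o21, o31, o32]
  ring

/-- the point of the unit sphere at latitude `s` and longitude `t` -/
noncomputable def pt (ζ F η : E) (s t : ℝ) : E :=
  vec3 ζ F η (Real.sin s * Real.cos t) (Real.sin s * Real.sin t) (Real.cos s)

/-- the tangent vector `α E + β sin s F` -/
noncomputable def tv (ζ F η : E) (α β s t : ℝ) : E :=
  vec3 ζ F η (α * Real.cos s * Real.cos t - β * Real.sin s * Real.sin t)
    (α * Real.cos s * Real.sin t + β * Real.sin s * Real.cos t) (-α * Real.sin s)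

lemma hasDerivAt_vec3 (ζ F η : E) {f0 f1 f2 : ℝ → ℝ} {a b c t : ℝ} (h0 : HasDerivAt f0 a t)
    (h1 : HasDerivAt f1 b t) (h2 : HasDerivAt f2 c t) :
    HasDerivAt (fun t => vec3 ζ F η (f0 t) (f1 t) (f2 t)) (vec3 ζ F η a b c) t := by
  unfold vec3
  exact ((h0.smul_const _).add (h1.smul_const _)).add (h2.smul_const _)

lemma hasDerivAt_lin (s α t : ℝ) : HasDerivAt (fun t => s + α * t) α t := by
  simpa using ((hasDerivAt_id t).const_mul α).const_add s

lemma hasDerivAt_pt (ζ F η : E) (α β s b t : ℝ) :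
    HasDerivAt (fun t => pt ζ F η (s + α * t) (b + β * t))
      (tv ζ F η α β (s + α * t) (b + β * t)) t := by
  have hs := hasDerivAt_lin s α t
  have hb := hasDerivAt_lin b β t
  refine (hasDerivAt_vec3 ζ F η (hs.sin.mul hb.cos) (hs.sin.mul hb.sin) hs.cos).congr_deriv ?_
  unfold tv
  congr 1 <;> ring

lemma hasDerivAt_tv (ζ F η : E) (α β s : ℝ) :
    HasDerivAt (fun t => tv ζ F η α β (s + α * t) (0 + β * t))
      (vec3 ζ F η (-(α ^ 2 + β ^ 2) * Real.sin s) (2 * α * β * Real.cos s)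
        (-α ^ 2 * Real.cos s)) 0 := by
  have hs := hasDerivAt_lin s α 0
  have hb := hasDerivAt_lin 0 β 0
  unfold tv
  refine (hasDerivAt_vec3 ζ F η
    (((hs.cos.const_mul α).mul hb.cos).sub ((hs.sin.const_mul β).mul hb.sin))
    (((hs.cos.const_mul α).mul hb.sin).add ((hs.sin.const_mul β).mul hb.cos))
    (hs.sin.const_mul (-α))).congr_deriv ?_
  simp only [mul_zero, add_zero, Real.cos_zero, Real.sin_zero]
  congr 1 <;> ring

/-- The form at latitude `s`: if `Θ = a E + b F` on the sphere then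
`⟪D_e Θ, e⟫ = a' α² + α β (b' sin s - b cos s) + β² a sin s cos s` for `e = α E + β sin s F`. -/
theorem form_of_value {ζ F η : E} (h : Ortho ζ F η) {Θ : E → E} {a b : ℝ → ℝ} {a' b' s : ℝ}
    (ha : HasDerivAt a a' s) (hb : HasDerivAt b b' s)
    (hV : ∀ σ τ, Θ (pt ζ F η σ τ) = vec3 ζ F η
      (a σ * Real.cos σ * Real.cos τ - b σ * Real.sin τ)
      (a σ * Real.cos σ * Real.sin τ + b σ * Real.cos τ) (-a σ * Real.sin σ))
    (hd : DifferentiableAt ℝ Θ (pt ζ F η s 0)) (α β : ℝ) :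
    ⟪fderiv ℝ Θ (pt ζ F η s 0) (tv ζ F η α β s 0), tv ζ F η α β s 0⟫ =
      a' * α ^ 2 + α * β * (b' * Real.sin s - b s * Real.cos s) +
        β ^ 2 * (a s * Real.sin s * Real.cos s) := by
  set p := pt ζ F η s 0 with hp
  set c : ℝ → E := fun t => pt ζ F η (s + α * t) (0 + β * t) with hc
  set c' : ℝ → E := fun t => tv ζ F η α β (s + α * t) (0 + β * t) with hc'
  have hc0 : c 0 = p := by simp [hc, hp]
  have hc'0 : c' 0 = tv ζ F η α β s 0 := by simp [hc']
  have hcd : HasDerivAt c (c' 0) 0 := hasDerivAt_pt ζ F η α β s 0 0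
  have hc'd := hasDerivAt_tv ζ F η α β s
  have hψ : ∀ t, ⟪Θ (c t), c' t⟫ =
      a (s + α * t) * α + b (s + α * t) * (β * Real.sin (s + α * t)) := by
    intro t
    rw [hc, hc']
    simp only
    rw [hV, tv, h.inner_vec3]
    have h1 := Real.sin_sq_add_cos_sq (s + α * t)
    have h2 := Real.sin_sq_add_cos_sq (0 + β * t)
    linear_combination (a (s + α * t) * α * Real.cos (s + α * t) ^ 2 +
      b (s + α * t) * β * Real.sin (s + α * t)) * h2 + a (s + α * t) * α * h1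
  have hd1 : HasDerivAt (fun t => ⟪Θ (c t), c' t⟫)
      (a' * α ^ 2 + α * β * (b' * Real.sin s + b s * Real.cos s)) 0 := by
    have h3 : (fun t => ⟪Θ (c t), c' t⟫) =
        fun t => a (s + α * t) * α + b (s + α * t) * (β * Real.sin (s + α * t)) := by
      funext t
      exact hψ t
    rw [h3]
    have h4 := hasDerivAt_lin s α 0
    have ha0 : HasDerivAt (fun t => a (s + α * t)) (a' * α) 0 := by
      have : HasDerivAt a a' (s + α * 0) := by simpa using ha
      exact this.comp (0 : ℝ) h4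
    have hb0 : HasDerivAt (fun t => b (s + α * t)) (b' * α) 0 := by
      have : HasDerivAt b b' (s + α * 0) := by simpa using hb
      exact this.comp (0 : ℝ) h4
    refine ((ha0.mul_const α).add (hb0.mul (h4.sin.const_mul β))).congr_deriv ?_
    simp only [mul_zero, add_zero]
    ring
  have hd2 : HasDerivAt (fun t => ⟪Θ (c t), c' t⟫)
      (⟪Θ p, vec3 ζ F η (-(α ^ 2 + β ^ 2) * Real.sin s) (2 * α * β * Real.cos s)
        (-α ^ 2 * Real.cos s)⟫ +
        ⟪fderiv ℝ Θ p (tv ζ F η α β s 0), tv ζ F η α β s 0⟫) 0 := by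
    have h5 : HasDerivAt (fun t => Θ (c t)) (fderiv ℝ Θ p (tv ζ F η α β s 0)) 0 := by
      have h6 : HasFDerivAt Θ (fderiv ℝ Θ p) (c 0) := by
        rw [hc0]
        exact hd.hasFDerivAt
      have := h6.comp_hasDerivAt 0 hcd
      rw [hc'0] at this
      exact this
    have h7 := h5.inner ℝ hc'd
    rw [hc0] at h7
    simp only [mul_zero, add_zero] at h7
    exact h7
  have h8 := hd1.unique hd2
  have h9 : Θ p = vec3 ζ F η (a s * Real.cos s) (b s) (-a s * Real.sin s) := by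
    rw [hp, hV]
    simp
  rw [h9, h.inner_vec3] at h8
  linear_combination -h8

/-- a binary quadratic form which is not definite has a nontrivial zero -/
lemma exists_zero {A B C : ℝ} (h : 4 * (A * C) ≤ B ^ 2) :
    ∃ α β : ℝ, (α ≠ 0 ∨ β ≠ 0) ∧ A * α ^ 2 + B * (α * β) + C * β ^ 2 = 0 := by
  rcases eq_or_ne A 0 with rfl | hA
  · exact ⟨1, 0, Or.inl one_ne_zero, by ring⟩
  · refine ⟨(-B + √(B ^ 2 - 4 * (A * C))) / (2 * A), 1, Or.inr one_ne_zero, ?_⟩
    have h1 : √(B ^ 2 - 4 * (A * C)) ^ 2 = B ^ 2 - 4 * (A * C) := Real.sq_sqrt (by linarith)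
    generalize √(B ^ 2 - 4 * (A * C)) = w at h1 ⊢
    field_simp
    linear_combination h1

lemma Ortho.norm_tv {ζ F η : E} (h : Ortho ζ F η) (α β s : ℝ) :
    ‖tv ζ F η α β s 0‖ ^ 2 = α ^ 2 + β ^ 2 * Real.sin s ^ 2 := by
  rw [← real_inner_self_eq_norm_sq, tv, h.inner_vec3]
  simp only [Real.cos_zero, Real.sin_zero]
  have h1 := Real.sin_sq_add_cos_sq s
  linear_combination α ^ 2 * h1

lemma Ortho.inner_tv {ζ F η : E} (h : Ortho ζ F η) (α β s : ℝ) :
    ⟪pt ζ F η s 0, tv ζ F η α β s 0⟫ = 0 := by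
  rw [pt, tv, h.inner_vec3]
  simp only [Real.cos_zero, Real.sin_zero]
  ring

/-- the weak saddle at latitude `s` -/
theorem weak_saddle_at {ζ F η : E} (h : Ortho ζ F η) {Θ : E → E} {a b : ℝ → ℝ} {a' b' s : ℝ}
    (ha : HasDerivAt a a' s) (hb : HasDerivAt b b' s)
    (hV : ∀ σ τ, Θ (pt ζ F η σ τ) = vec3 ζ F η
      (a σ * Real.cos σ * Real.cos τ - b σ * Real.sin τ)
      (a σ * Real.cos σ * Real.sin τ + b σ * Real.cos τ) (-a σ * Real.sin σ))
    (hd : DifferentiableAt ℝ Θ (pt ζ F η s 0))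
    (hs : (Real.sin s = 0 ∧ a' = 1) ∨ (Real.sin s ≠ 0 ∧
      4 * ((1 - a') * (Real.sin s ^ 2 - a s * Real.sin s * Real.cos s)) ≤
        (b' * Real.sin s - b s * Real.cos s) ^ 2)) :
    ∃ e : E, ⟪pt ζ F η s 0, e⟫ = 0 ∧ e ≠ 0 ∧
      ⟪fderiv ℝ Θ (pt ζ F η s 0) e, e⟫ = ‖e‖ ^ 2 := by
  have key : ∃ α β : ℝ, 0 < α ^ 2 + β ^ 2 * Real.sin s ^ 2 ∧
      a' * α ^ 2 + α * β * (b' * Real.sin s - b s * Real.cos s) +
        β ^ 2 * (a s * Real.sin s * Real.cos s) = α ^ 2 + β ^ 2 * Real.sin s ^ 2 := by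
    rcases hs with ⟨h0, h1⟩ | ⟨h0, h1⟩
    · exact ⟨1, 0, by norm_num, by rw [h1]; ring⟩
    · obtain ⟨α, β, hne, hz⟩ := exists_zero (A := 1 - a')
        (B := -(b' * Real.sin s - b s * Real.cos s))
        (C := Real.sin s ^ 2 - a s * Real.sin s * Real.cos s) (by linarith)
      refine ⟨α, β, ?_, by linear_combination -hz⟩
      rcases hne with hα | hβ
      · have := sq_nonneg (β * Real.sin s)
        have : 0 < α ^ 2 := by positivity
        nlinarith
      · have := sq_nonneg α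
        have : 0 < β ^ 2 * Real.sin s ^ 2 := by positivity
        linarith
  obtain ⟨α, β, hpos, heq⟩ := key
  refine ⟨tv ζ F η α β s 0, h.inner_tv α β s, ?_, ?_⟩
  · intro h0
    have := h.norm_tv α β s
    rw [h0] at this
    simp at this
    linarith
  · rw [form_of_value h ha hb hV hd, h.norm_tv, heq]

end Form

end Pool.Agent.Lib_MP_a29272_n
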