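import Pool.Agent.Lib_MP_a29272_n.Value

/-! Every point of the unit sphere has a latitude and a frame. -/

namespace Pool.Agent.Lib_MP_a29272_n

open scoped RealInnerProductSpace

section Frames

variable {E : Type} [NormedAddCommGroup E] [InnerProductSpace ℝ E]

theorem exists_frame {u v w0 : E} (hu : ⟪u, u⟫ = 1) (hv : ⟪v, v⟫ = 1) (huv : ⟪u, v⟫ = 0)
    (hw : ⟪w0, w0⟫ = 1) (hwu : ⟪u, w0⟫ = 0) (hwv : ⟪v, w0⟫ = 0) {x : E} (hx : ‖x‖ = 1) :
    ∃ ζ F η s, Frame u v ζ F η ∧ 0 ≤ s ∧ s ≤ Real.pi / 2 ∧ x = pt ζ F η s 0 := by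
  have hvu : ⟪v, u⟫ = 0 := by rw [real_inner_comm]; exact huv
  have hxx : ⟪x, x⟫ = 1 := by rw [real_inner_self_eq_norm_sq, hx]; norm_num
  set z : ℂ := ⟨⟪u, x⟫, ⟪v, x⟫⟩ with hz
  set θ := Complex.arg z with hθ
  have hc : ‖z‖ * Real.cos θ = ⟪u, x⟫ := Complex.norm_mul_cos_arg z
  have hs : ‖z‖ * Real.sin θ = ⟪v, x⟫ := Complex.norm_mul_sin_arg z
  have hsc := Real.sin_sq_add_cos_sq θ
  have hr0 : 0 ≤ ‖z‖ := norm_nonneg z
  set r := ‖z‖ with hr
  set ζ : E := Real.cos θ • u + Real.sin θ • v with hζ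
  set F : E := -Real.sin θ • u + Real.cos θ • v with hF
  -- the `y` part
  set y : E := x - r • ζ with hy
  have hux : ⟪u, y⟫ = 0 := by
    rw [hy, hζ]
    simp only [inner_sub_right, inner_add_right, real_inner_smul_right, hu, huv]
    linear_combination -hc
  have hvx : ⟪v, y⟫ = 0 := by
    rw [hy, hζ]
    simp only [inner_sub_right, inner_add_right, real_inner_smul_right, hv, hvu]
    linear_combination -hs
  have hζζ : ⟪ζ, ζ⟫ = 1 := by
    rw [hζ]
    simp only [inner_add_left, inner_add_right, real_inner_smul_left, real_inner_smul_right, hu,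
      hv, huv, hvu]
    linear_combination hsc
  have hζy : ⟪ζ, y⟫ = 0 := by
    rw [hζ, inner_add_left, real_inner_smul_left, real_inner_smul_left, hux, hvx]
    ring
  have hyζ : ⟪y, ζ⟫ = 0 := by rw [real_inner_comm]; exact hζy
  have hxy : x = r • ζ + y := by rw [hy]; abel
  have hyy : ⟪y, y⟫ = 1 - r ^ 2 := by
    have h1 : ⟪x, x⟫ = r ^ 2 + ⟪y, y⟫ := by
      conv_lhs => rw [hxy]
      simp only [inner_add_left, inner_add_right, real_inner_smul_left, real_inner_smul_right,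
        hζζ, hζy, hyζ]
      ring
    linarith
  have hr1 : r ≤ 1 := by
    have := real_inner_self_nonneg (x := y)
    nlinarith
  -- the unit vector in the direction of `y`
  obtain ⟨η, hη, huη, hvη, hyη⟩ : ∃ η : E, ⟪η, η⟫ = 1 ∧ ⟪u, η⟫ = 0 ∧ ⟪v, η⟫ = 0 ∧
      y = ‖y‖ • η := by
    by_cases hy0 : y = 0
    · exact ⟨w0, hw, hwu, hwv, by rw [hy0]; simp⟩
    · have hn : ‖y‖ ≠ 0 := norm_ne_zero_iff.2 hy0
      refine ⟨‖y‖⁻¹ • y, ?_, ?_, ?_, ?_⟩
      · rw [real_inner_smul_left, real_inner_smul_right, real_inner_self_eq_norm_sq]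
        field_simp
      · rw [real_inner_smul_right, hux, mul_zero]
      · rw [real_inner_smul_right, hvx, mul_zero]
      · rw [smul_smul, mul_inv_cancel₀ hn, one_smul]
  have hny : ‖y‖ = √(1 - r ^ 2) := by
    rw [← hyy, real_inner_self_eq_norm_sq, Real.sqrt_sq (norm_nonneg y)]
  refine ⟨ζ, F, η, Real.arcsin r, ⟨⟨hζζ, ?_, hη, ?_, ?_, ?_⟩, fun w => ?_, fun w => ?_⟩,
    Real.arcsin_nonneg.2 hr0, Real.arcsin_le_pi_div_two r, ?_⟩
  · rw [hF]
    simp only [inner_add_left, inner_add_right, real_inner_smul_left, real_inner_smul_right, hu,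
      hv, huv, hvu]
    linear_combination hsc
  · rw [hF, hζ]
    simp only [inner_add_left, inner_add_right, real_inner_smul_left, real_inner_smul_right, hu,
      hv, huv, hvu]
    ring
  · rw [hζ, inner_add_left, real_inner_smul_left, real_inner_smul_left, huη, hvη]
    ring
  · rw [hF, inner_add_left, real_inner_smul_left, real_inner_smul_left, huη, hvη]
    ring
  · rw [hζ, hF]
    simp only [inner_add_left, real_inner_smul_left]
    linear_combination (-(⟪u, w⟫ ^ 2 + ⟪v, w⟫ ^ 2)) * hsc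
  · rw [hζ, hF]
    simp only [inner_add_left, real_inner_smul_left]
    match_scalars
    · linear_combination (-⟪u, w⟫) * hsc
    · linear_combination ⟪v, w⟫ * hsc
  · rw [pt, Real.cos_zero, Real.sin_zero, Real.sin_arcsin (by linarith) hr1, Real.cos_arcsin,
      ← hny, mul_one, mul_zero, vec3, zero_smul, add_zero, ← hyη]
    exact hxy

end Frames

end Pool.Agent.Lib_MP_a29272_n
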