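import Mathlib

/-!
# The trigonometric inequality for the form on the unit sphere
-/

open Real

namespace Pool.Agent.Lib_MP_a29272_n.TrigN

lemma mul_cos_le_sin {s : ℝ} (h0 : 0 ≤ s) (h1 : s ≤ π / 2) : s * cos s ≤ sin s := by
  rcases eq_or_lt_of_le h1 with h | h
  · rw [h, cos_pi_div_two, sin_pi_div_two]; norm_num
  · have hc : 0 < cos s := cos_pos_of_mem_Ioo ⟨by linarith [pi_pos], h⟩
    have ht := le_tan h0 h
    rw [tan_eq_sin_div_cos, le_div_iff₀ hc] at ht
    exact ht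

/-- The lower bound for `sin t - t cos t` on `[0, π/2]`. -/
lemma sin_sub_lower {t : ℝ} (h0 : 0 < t) (h1 : t ≤ π / 2) :
    (44 / 250) * t ^ 3 ≤ sin t - t * cos t := by
  have hpi : π < 3.15 := pi_lt_d2
  set u : ℝ := t / 2 with hu
  have hu0 : 0 < u := by positivity
  have hu1 : u ≤ 0.79 := by rw [hu]; linarith
  have htu : t = 2 * u := by rw [hu]; ring
  have hs : u - u ^ 3 / 6 < sin u := sin_gt_sub_cube hu0
  have hcs : u * cos u ≤ sin u := mul_cos_le_sin hu0.le (by linarith)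
  have hcu : 0 ≤ cos u := cos_nonneg_of_neg_pi_div_two_le_of_le (by linarith [pi_pos]) (by linarith)
  have h2 : sin u ^ 2 + cos u ^ 2 = 1 := sin_sq_add_cos_sq u
  have e1 : sin t - t * cos t = 2 * (cos u * (sin u - u * cos u) + u * sin u ^ 2) := by
    rw [htu, sin_two_mul, cos_two_mul']
    ring
  have hlow : 0.84 * u ≤ sin u := by nlinarith [mul_pos hu0 hu0]
  have hsq : (0.84 * u) ^ 2 ≤ sin u ^ 2 := by
    apply pow_le_pow_left₀ (by positivity) hlow
  rw [e1, htu]
  have h3 : 0 ≤ cos u * (sin u - u * cos u) := mul_nonneg hcu (by linarith)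
  nlinarith [mul_le_mul_of_nonneg_left hsq hu0.le, pow_pos hu0 3]

/-- The inequality after division by `sin s ^ 2`. -/
lemma core {t l S C C3 : ℝ} (ht : 0 < t) (hl0 : 0 ≤ l) (hlt : l * t ≤ 1)
    (hS : S = sin t) (hC : C = cos t) (hC3 : C3 = cos (3 * t))
    (hlow : t ≤ π / 2 → (1 - t ^ 2 / 18) ≤ l * t) :
    8 * S ^ 2 * (8 * C ^ 2 - 1) * (1 - C3 * (l * S)) ≤ 40000 * (C - l * S) ^ 2 := by
  have hsc : S ^ 2 + C ^ 2 = 1 := by rw [hS, hC]; exact sin_sq_add_cos_sq t
  have hC31 : C3 ≤ 1 := hC3 ▸ cos_le_one _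
  have hC32 : -1 ≤ C3 := hC3 ▸ neg_one_le_cos _
  have hSt : |S| ≤ t := by rw [hS]; exact abs_sin_le_abs.trans (le_of_eq (abs_of_pos ht))
  have hmu : |l * S| ≤ 1 := by
    rw [abs_mul, abs_of_nonneg hl0]
    exact (mul_le_mul_of_nonneg_left hSt hl0).trans hlt
  have hC3a : |C3| ≤ 1 := abs_le.2 ⟨hC32, hC31⟩
  have hprod : |C3 * (l * S)| ≤ 1 := by
    rw [abs_mul]; nlinarith [abs_nonneg C3, abs_nonneg (l * S)]
  obtain ⟨hp1, hp2⟩ := abs_le.1 hprod
  have hS2 : 0 ≤ S ^ 2 := sq_nonneg S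
  have hC2 : 0 ≤ C ^ 2 := sq_nonneg C
  rcases le_or_gt (8 * C ^ 2) 1 with h8 | h8
  · have : 8 * S ^ 2 * (8 * C ^ 2 - 1) * (1 - C3 * (l * S)) ≤ 0 := by
      apply mul_nonpos_of_nonpos_of_nonneg
      · apply mul_nonpos_of_nonneg_of_nonpos (by positivity) (by linarith)
      · linarith
    nlinarith [sq_nonneg (C - l * S)]
  -- the upper bound 128 C^2
  have hup : 8 * S ^ 2 * (8 * C ^ 2 - 1) * (1 - C3 * (l * S)) ≤ 128 * C ^ 2 := by
    have h1 : 8 * S ^ 2 * (8 * C ^ 2 - 1) * (1 - C3 * (l * S)) ≤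
        8 * S ^ 2 * (8 * C ^ 2 - 1) * 2 := by
      apply mul_le_mul_of_nonneg_left (by linarith)
      exact mul_nonneg (by positivity) (by linarith)
    nlinarith [mul_nonneg hS2 hC2, mul_nonneg hC2 hC2]
  rcases le_or_gt (S * C) 0 with hSC | hSC
  · have h1 : C ^ 2 ≤ (C - l * S) ^ 2 := by
      nlinarith [mul_nonneg hl0 (neg_nonneg.2 hSC), sq_nonneg (l * S)]
    nlinarith
  rcases le_or_gt t (π / 2) with htp | htp
  · -- near zero
    have hlow' := hlow htp
    have hSpos : 0 < S := by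
      rw [hS]; exact sin_pos_of_pos_of_lt_pi ht (by linarith [pi_pos])
    have hSt' : S ≤ t := (le_abs_self S).trans hSt
    have hmain := sin_sub_lower ht htp
    rw [← hS, ← hC] at hmain
    have hgap : (12 / 100) * t ^ 2 ≤ l * S - C := by
      -- multiply by t
      have h1 : (12 / 100) * t ^ 3 ≤ (l * S - C) * t := by
        have h2 : (1 - t ^ 2 / 18) * S ≤ l * t * S := mul_le_mul_of_nonneg_right hlow' hSpos.le
        have h3 : t ^ 2 * S ≤ t ^ 3 := by nlinarith [sq_nonneg t]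
        nlinarith [pow_pos ht 3]
      have h4 : (12 / 100) * t ^ 2 * t ≤ (l * S - C) * t := by nlinarith
      exact le_of_mul_le_mul_right h4 ht
    have hmu1 : l * S ≤ 1 := (abs_le.1 hmu).2
    have hmu0 : 0 ≤ l * S := mul_nonneg hl0 hSpos.le
    have hcos3 : 1 - C3 ≤ (9 / 2) * t ^ 2 := by
      have := one_sub_sq_div_two_le_cos (x := 3 * t)
      rw [← hC3] at this; nlinarith
    have hcos1 : 1 - C ≤ (1 / 2) * t ^ 2 := by
      have := one_sub_sq_div_two_le_cos (x := t)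
      rw [← hC] at this; nlinarith
    have h5 : 1 - C3 * (l * S) ≤ 5 * t ^ 2 := by
      have h6 : 1 - C3 * (l * S) = (1 - l * S) + l * S * (1 - C3) := by ring
      have h7 : l * S * (1 - C3) ≤ 1 * (1 - C3) := mul_le_mul_of_nonneg_right hmu1 (by linarith)
      have h8 : 0 ≤ t ^ 2 := sq_nonneg t
      linarith
    have h9 : S ^ 2 ≤ t ^ 2 := pow_le_pow_left₀ hSpos.le hSt' 2
    have h10 : 8 * C ^ 2 - 1 ≤ 7 := by nlinarith
    have h11 : 8 * S ^ 2 * (8 * C ^ 2 - 1) * (1 - C3 * (l * S)) ≤ 280 * t ^ 4 := by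
      calc 8 * S ^ 2 * (8 * C ^ 2 - 1) * (1 - C3 * (l * S))
          ≤ (8 * t ^ 2 * 7) * (5 * t ^ 2) := by
            apply mul_le_mul _ h5 (by linarith) (by positivity)
            apply mul_le_mul _ h10 (by linarith) (by positivity)
            linarith
        _ = 280 * t ^ 4 := by ring
    have h12 : ((12 / 100) * t ^ 2) ^ 2 ≤ (l * S - C) ^ 2 :=
      pow_le_pow_left₀ (by positivity) hgap 2
    have h13 : (C - l * S) ^ 2 = (l * S - C) ^ 2 := by ring
    rw [h13]
    have h14 : ((12 / 100) * t ^ 2) ^ 2 = (144 / 10000) * t ^ 4 := by ring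
    have h15 : 0 ≤ t ^ 4 := by positivity
    linarith
  · -- then t ≥ π
    have htpi : π ≤ t := by
      by_contra hcon
      have hcon' : t < π := not_le.1 hcon
      have h1 : 0 < S := by rw [hS]; exact sin_pos_of_pos_of_lt_pi ht hcon'
      have h2 : C < 0 := by
        rw [hC]; exact cos_neg_of_pi_div_two_lt_of_lt htp (by linarith [pi_pos])
      nlinarith
    have hl3 : l ≤ 1 / 3 := by
      have h3 : (3 : ℝ) < t := lt_of_lt_of_le pi_gt_three htpi
      by_contra hcon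
      have : 1 / 3 < l := not_le.1 hcon
      nlinarith
    -- |S| ≤ (8/3)|C|
    have hSC' : S ^ 2 ≤ (64 / 9) * C ^ 2 := by nlinarith
    have h1 : (1 / 81) * C ^ 2 ≤ (C - l * S) ^ 2 := by
      have habs : |S| ≤ (8 / 3) * |C| := by
        apply abs_le_of_sq_le_sq _ (by positivity)
        rw [mul_pow, sq_abs]; nlinarith
      have h2 : |l * S| ≤ (8 / 9) * |C| := by
        rw [abs_mul, abs_of_nonneg hl0]
        nlinarith [abs_nonneg S, abs_nonneg C]
      have h3 : (1 / 9) * |C| ≤ |C - l * S| := by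
        have := abs_sub_abs_le_abs_sub C (l * S)
        linarith
      have h4 : ((1 / 9) * |C|) ^ 2 ≤ |C - l * S| ^ 2 := pow_le_pow_left₀ (by positivity) h3 2
      rw [mul_pow, sq_abs, sq_abs] at h4
      nlinarith
    nlinarith

end Pool.Agent.Lib_MP_a29272_n.TrigN

namespace Pool.Agent.Lib_MP_a29272_n

theorem trig_n (m s : ℝ) (hm : 3 ≤ m) (hs : 0 < s) (hs' : s ≤ π / 2) :
    8 * sin (m * s) ^ 2 * (8 * cos (m * s) ^ 2 - 1) *
      (sin s ^ 2 - sin s * cos (3 * (m * s)) * (sin (m * s) * cos s / m)) ≤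
      40000 * (cos (m * s) * sin s - sin (m * s) * cos s / m) ^ 2 := by
  have hm0 : 0 < m := by linarith
  have hX : 0 < sin s := sin_pos_of_pos_of_lt_pi hs (by linarith [pi_pos])
  have hY : 0 ≤ cos s := cos_nonneg_of_neg_pi_div_two_le_of_le (by linarith [pi_pos]) hs'
  have hts : 0 < m * s := by positivity
  set l : ℝ := cos s / (m * sin s) with hl
  have hl0 : 0 ≤ l := by positivity
  have hlX : l * (m * sin s) = cos s := div_mul_cancel₀ _ (by positivity)
  have hlt : l * (m * s) ≤ 1 := by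
    have h1 := TrigN.mul_cos_le_sin hs.le hs'
    rw [hl, div_mul_eq_mul_div, div_le_one (by positivity)]
    nlinarith
  have hlow : m * s ≤ π / 2 → 1 - (m * s) ^ 2 / 18 ≤ l * (m * s) := by
    intro _
    have h1 : sin s ≤ s := sin_le hs.le
    have h2 : 1 - s ^ 2 / 2 ≤ cos s := one_sub_sq_div_two_le_cos
    have h3 : cos s ≤ l * (m * s) := by
      rw [← hlX]
      apply mul_le_mul_of_nonneg_left _ hl0
      exact mul_le_mul_of_nonneg_left h1 hm0.le
    have h4 : 9 * s ^ 2 ≤ (m * s) ^ 2 := by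
      rw [mul_pow]
      apply mul_le_mul_of_nonneg_right _ (sq_nonneg s)
      nlinarith
    linarith
  have key := TrigN.core (t := m * s) (l := l) (S := sin (m * s)) (C := cos (m * s))
    (C3 := cos (3 * (m * s))) hts hl0 hlt rfl rfl rfl hlow
  have e1 : sin (m * s) * cos s / m = l * sin (m * s) * sin s := by
    rw [← hlX]; field_simp
  rw [e1]
  have hX2 : 0 ≤ sin s ^ 2 := sq_nonneg _
  have := mul_le_mul_of_nonneg_right key hX2
  calc _ = 8 * sin (m * s) ^ 2 * (8 * cos (m * s) ^ 2 - 1) *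
        (1 - cos (3 * (m * s)) * (l * sin (m * s))) * sin s ^ 2 := by ring
    _ ≤ _ := this
    _ = _ := by ring

end Pool.Agent.Lib_MP_a29272_n
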