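import Pool.Agent.Lib_MP_a29272_q1.NoConv

/-! Weak saddles exclude strictly convex functions. -/

namespace Pool.Agent.Lib_MP_a29272_n

open Set Metric
open scoped ContDiff RealInnerProductSpace
open Pool.Agent.Lib_MP_a29272_q1

/-- at every point of the unit sphere the form `⟪D_e Θ, e⟫ - |e|²` has a nonzero tangential zero -/
def WSaddle {E : Type} [NormedAddCommGroup E] [InnerProductSpace ℝ E] (Θ : E → E) : Prop :=
  ∀ x : E, ‖x‖ = 1 → ∃ e : E, ⟪x, e⟫ = 0 ∧ e ≠ 0 ∧ ⟪fderiv ℝ Θ x e, e⟫ = ‖e‖ ^ 2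

/-- **No strictly convex function**, weak saddle version: at a maximum `p` of `f` on the unit
sphere, the Hessian of `f` at `(e, e)` is at most `0` for the vector `e` of the weak saddle. -/
theorem no_convex_weak {E : Type} [NormedAddCommGroup E] [InnerProductSpace ℝ E]
    [FiniteDimensional ℝ E] [Nontrivial E] {Θ : E → E} (h : Adm Θ) (hs : WSaddle Θ) {R : ℝ}
    (hR : 1 < R) {f : E → ℝ} (hf : ContDiffOn ℝ 2 f (ball 0 R)) :
    ∃ x ∈ ball (0 : E) R, ∃ v ≠ 0, hessian (gT Θ) f x v v ≤ 0 := by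
  have hne : (sphere (0 : E) 1).Nonempty := NormedSpace.sphere_nonempty.2 zero_le_one
  have hsub : sphere (0 : E) 1 ⊆ ball 0 R := by
    intro x hx
    rw [mem_ball_zero_iff]
    rw [mem_sphere_zero_iff_norm] at hx
    linarith
  obtain ⟨p, hpS, hpmax⟩ :=
    (isCompact_sphere (0 : E) 1).exists_isMaxOn hne (hf.continuousOn.mono hsub)
  have hp : ‖p‖ = 1 := mem_sphere_zero_iff_norm.1 hpS
  have hmax : ∀ x, ‖x‖ = 1 → f x ≤ f p := fun x hx => hpmax (mem_sphere_zero_iff_norm.2 hx)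
  obtain ⟨e, hpe, he, heq⟩ := hs p hp
  have hsm : ‖Θ p‖ < 1 := by
    have := h.small p
    rwa [hp, one_mul] at this
  refine ⟨p, hsub hpS, e, he, ?_⟩
  have := Lib_MP_a29272_sp.hessian_at_max (gT_apply Θ)
    ((gT_contDiff h.smooth).differentiable (by simp) p) (h.smooth.differentiable (by simp) p) hp
    (h.orth p) hsm hR hf hmax he hpe (Γ := christoffel (gT Θ) p e e)
    (fun z => christoffel_spec (gT Θ) p (fun u hu => gT_pos h p hu) e e z)
  rw [heq, sub_self, zero_div, mul_zero] at this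
  exact this

end Pool.Agent.Lib_MP_a29272_n
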