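import Pool.Agent.Lib_MP_a29272_n.Frames
import Pool.Agent.Lib_MP_a29272_n.Family
import Pool.Agent.Lib_MP_a29272_n.WeakSaddle
import Pool.Agent.Lib_MP_a29272_n.TrigN

/-! The shift fields have a weak saddle at every point of the unit sphere. -/

namespace Pool.Agent.Lib_MP_a29272_n

open scoped RealInnerProductSpace
open Pool.Agent.Lib_MP_a29272_n.Gen (mm one_le_mm mm_cast ThetaG ThetaG_sphere inner_gradient Jrot
  Jrot_apply ThetaG_contDiff goodFamily)
open Pool.Agent.LibMPa29272s (PN PN_contDiff PN_euler PN_pair PN_trig)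

section Profiles

lemma hasDerivAt_sin_mul (A σ : ℝ) :
    HasDerivAt (fun σ => Real.sin (A * σ)) (A * Real.cos (A * σ)) σ := by
  have h : HasDerivAt (fun σ : ℝ => A * σ) A σ := by
    simpa using (hasDerivAt_id σ).const_mul A
  refine h.sin.congr_deriv ?_
  ring

lemma hasDerivAt_aF (k : ℕ) (σ : ℝ) :
    HasDerivAt (aF k) (2 * Real.cos (4 * mm k * σ) - Real.cos (2 * mm k * σ)) σ := by
  have hm1 : 1 ≤ mm k := one_le_mm k
  have hm0 : mm k ≠ 0 := by positivity
  refine (((hasDerivAt_sin_mul (4 * mm k) σ).sub (hasDerivAt_sin_mul (2 * mm k) σ)).div_const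
    (2 * mm k)).congr_deriv ?_
  field_simp
  ring

lemma hasDerivAt_bF (c : ℝ) (k : ℕ) (σ : ℝ) :
    HasDerivAt (bF c k) (c * Real.cos (mm k * σ)) σ := by
  have hm1 : 1 ≤ mm k := one_le_mm k
  have hm0 : mm k ≠ 0 := by positivity
  refine ((hasDerivAt_sin_mul (mm k) σ).const_mul (c / mm k)).congr_deriv ?_
  field_simp

/-- the discriminant inequality at latitude `s`, `c = 200` -/
lemma disc_ineq {k : ℕ} (hk : 1 ≤ k) {s : ℝ} (hs : 0 < s) (hs' : s ≤ Real.pi / 2) :
    4 * ((1 - (2 * Real.cos (4 * mm k * s) - Real.cos (2 * mm k * s))) *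
      (Real.sin s ^ 2 - aF k s * Real.sin s * Real.cos s)) ≤
      (200 * Real.cos (mm k * s) * Real.sin s - bF 200 k s * Real.cos s) ^ 2 := by
  have hk' : (1 : ℝ) ≤ k := by exact_mod_cast hk
  have hm3 : 3 ≤ mm k := by rw [mm]; linarith
  have hm0 : mm k ≠ 0 := by positivity
  have key := trig_n (mm k) s hm3 hs hs'
  have hsc := Real.sin_sq_add_cos_sq (mm k * s)
  have e2 : Real.cos (2 * mm k * s) = 2 * Real.cos (mm k * s) ^ 2 - 1 := by
    rw [← Real.cos_two_mul]; congr 1; ring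
  have e4 : Real.cos (4 * mm k * s) = 2 * (2 * Real.cos (mm k * s) ^ 2 - 1) ^ 2 - 1 := by
    rw [← Real.cos_two_mul, ← Real.cos_two_mul]; congr 1; ring
  have s2 : Real.sin (2 * mm k * s) = 2 * Real.sin (mm k * s) * Real.cos (mm k * s) := by
    rw [← Real.sin_two_mul]; congr 1; ring
  have s4 : Real.sin (4 * mm k * s) = 2 * (2 * Real.sin (mm k * s) * Real.cos (mm k * s)) *
      (2 * Real.cos (mm k * s) ^ 2 - 1) := by
    rw [← Real.cos_two_mul, ← Real.sin_two_mul, ← Real.sin_two_mul]; congr 1; ring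
  have e3 : Real.cos (3 * (mm k * s)) = 4 * Real.cos (mm k * s) ^ 3 - 3 * Real.cos (mm k * s) :=
    Real.cos_three_mul _
  have h1 : 1 - (2 * Real.cos (4 * mm k * s) - Real.cos (2 * mm k * s)) =
      2 * Real.sin (mm k * s) ^ 2 * (8 * Real.cos (mm k * s) ^ 2 - 1) := by
    rw [e2, e4]
    linear_combination (-2 * (8 * Real.cos (mm k * s) ^ 2 - 1)) * hsc
  have h2 : aF k s * Real.sin s * Real.cos s =
      Real.sin s * Real.cos (3 * (mm k * s)) * (Real.sin (mm k * s) * Real.cos s / mm k) := by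
    rw [aF, s2, s4, e3]
    field_simp
    ring
  have h3 : (200 * Real.cos (mm k * s) * Real.sin s - bF 200 k s * Real.cos s) ^ 2 =
      40000 * (Real.cos (mm k * s) * Real.sin s - Real.sin (mm k * s) * Real.cos s / mm k) ^ 2 := by
    rw [bF]
    ring
  rw [h1, h2, h3]
  refine le_trans (le_of_eq ?_) key
  ring

end Profiles

section Saddle

variable {E : Type} [NormedAddCommGroup E] [InnerProductSpace ℝ E] [FiniteDimensional ℝ E]

/-- the weak saddle condition in an arbitrary space -/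
theorem wsaddle_general {u v w0 : E} (hu : ⟪u, u⟫ = 1) (hv : ⟪v, v⟫ = 1) (huv : ⟪u, v⟫ = 0)
    (hw : ⟪w0, w0⟫ = 1) (hwu : ⟪u, w0⟫ = 0) (hwv : ⟪v, w0⟫ = 0) {P : ℕ → E → ℝ}
    (hP : PData u v P) {J : E →L[ℝ] E} (hJ : ∀ x, J x = ⟪u, x⟫ • v - ⟪v, x⟫ • u) {k : ℕ}
    (hk : 1 ≤ k) (hd : Differentiable ℝ (ThetaG P J 200 k)) : WSaddle (ThetaG P J 200 k) := by
  intro x hx
  obtain ⟨ζ, F, η, s, hF, hs0, hs1, rfl⟩ := exists_frame hu hv huv hw hwu hwv hx
  refine weak_saddle_at hF.ortho (hasDerivAt_aF k s) (hasDerivAt_bF 200 k s)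
    (fun σ τ => theta_value hF hP hJ 200 k σ τ) (hd _) ?_
  rcases hs0.eq_or_lt with h0 | h0
  · left
    rw [← h0]
    norm_num
  · right
    exact ⟨(Real.sin_pos_of_pos_of_lt_pi h0 (by linarith [Real.pi_pos])).ne', disc_ineq hk h0 hs1⟩

end Saddle

section Euclidean

variable {ι : Type} [Fintype ι] [DecidableEq ι]

theorem pdata_PN {i j : ι} (hij : i ≠ j) :
    PData (EuclideanSpace.single i (1 : ℝ)) (EuclideanSpace.single j (1 : ℝ)) (PN {i, j}) where
  diff M := (PN_contDiff {i, j} M).differentiable (by simp)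
  euler M x := PN_euler {i, j} M x
  symm M x y h1 h2 := by
    simp only [EuclideanSpace.inner_single_left, map_one, one_mul] at h2
    rw [PN_pair hij, PN_pair hij, h1, h2]
  val M x θ h1 h2 := by
    simp only [EuclideanSpace.inner_single_left, map_one, one_mul] at h2
    have hz : ∑ l ∈ ({i, j} : Finset ι), x l ^ 2 = (1 * Real.sin θ) ^ 2 := by
      rw [Finset.sum_pair hij, one_mul, h2]
    have hy : ∑ l ∈ ({i, j} : Finset ι)ᶜ, x l ^ 2 = (1 * Real.cos θ) ^ 2 := by
      have h3 := Finset.sum_add_sum_compl ({i, j} : Finset ι) (fun l => x l ^ 2)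
      have h4 : ∑ l, x l ^ 2 = 1 := by
        rw [← EuclideanSpace.real_norm_sq_eq, h1]
        norm_num
      have := Real.sin_sq_add_cos_sq θ
      rw [h4] at h3
      rw [one_mul] at hz ⊢
      linarith
    rw [PN_trig {i, j} M 1 θ x hy hz]
    simp

/-- **The shift fields have weak saddles.** -/
theorem wsaddle {i j l : ι} (hij : i ≠ j) (hil : i ≠ l) (hjl : j ≠ l) {k : ℕ} (hk : 1 ≤ k) :
    WSaddle (ThetaG (PN {i, j}) (Jrot i j) 200 k) := by
  refine wsaddle_general (u := EuclideanSpace.single i (1 : ℝ))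
    (v := EuclideanSpace.single j (1 : ℝ)) (w0 := EuclideanSpace.single l (1 : ℝ)) ?_ ?_ ?_ ?_ ?_ ?_
    (pdata_PN hij) (fun x => ?_) hk
      ((ThetaG_contDiff (goodFamily hij) 200 k).differentiable (by simp))
  · rw [EuclideanSpace.inner_single_left]; simp
  · rw [EuclideanSpace.inner_single_left]; simp
  · rw [EuclideanSpace.inner_single_left]; simp [hij]
  · rw [EuclideanSpace.inner_single_left]; simp
  · rw [EuclideanSpace.inner_single_left]; simp [hil]
  · rw [EuclideanSpace.inner_single_left]; simp [hjl]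
  · rw [Jrot_apply, EuclideanSpace.inner_single_left, EuclideanSpace.inner_single_left]
    simp

end Euclidean

end Pool.Agent.Lib_MP_a29272_n
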