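import Pool.Agent.Lib_MP_a29272_q1.Simple
import Pool.Agent.Lib_MP_a29272_q1.Nontrap
import Pool.Agent.Lib_MP_a29272_n.WeakSaddle
import Pool.Agent.Lib_MP_a29272_n.Family
import Pool.Agent.Lib_MP_a29272_n.SaddleN

/-!
# The main theorem in every dimension at least three
-/

namespace Pool.Agent.Lib_MP_a29272_n

open Set Metric
open scoped ContDiff RealInnerProductSpace
open Pool.Agent.Lib_MP_a29272_q1

/-- From shift fields with the weak saddle property, at scales `1 / (2k + 1)`, to simple metrics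
without strictly convex functions. -/
theorem main_of_fields {E : Type} [NormedAddCommGroup E] [InnerProductSpace ℝ E]
    [FiniteDimensional ℝ E] [Nontrivial E] (A : ℝ) (hA : 1 ≤ A)
    (h : ∀ k : ℕ, 1 ≤ k → ∃ Θ : E → E, Shift A (1 / (2 * (k : ℝ) + 1)) Θ ∧ WSaddle Θ)
    (ε : ℝ) (hε : 0 < ε) :
    ∃ (R : ℝ) (g : E → E →L[ℝ] E →L[ℝ] ℝ),
      1 < R ∧ R < 1 + ε ∧ (∀ x v, |g x v v - ‖v‖ ^ 2| ≤ ε * ‖v‖ ^ 2) ∧
      IsRiemannianMetric R g ∧ IsSimple R g ∧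
      (∀ (τ : ℝ) (γ γ' : ℝ → E), IsGeodesicOn g γ γ' (Icc 0 τ) →
        (∀ t ∈ Icc 0 τ, γ t ∈ closedBall (0 : E) R) →
          (∀ t ∈ Icc 0 τ, g (γ t) (γ' t) (γ' t) = 1) → τ ≤ 5) ∧
      ∀ f : E → ℝ, ContDiffOn ℝ 2 f (ball 0 R) →
        ∃ x ∈ ball (0 : E) R, ∃ v, v ≠ 0 ∧ hessian g f x v v ≤ 0 := by
  obtain ⟨δ₁, hδ₁, hsimple⟩ := simple_of_shift (E := E) A hA
  obtain ⟨δ₂, hδ₂, hnt⟩ := nontrap (E := E) A hA
  obtain ⟨k, hk⟩ := exists_nat_gt (1 / min (min δ₁ δ₂) (min 1 (ε / (4 * A))))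
  have hpos : 0 < min (min δ₁ δ₂) (min 1 (ε / (4 * A))) := by positivity
  have hk0 : (0 : ℝ) < k := lt_trans (by positivity) hk
  have hk1 : 1 ≤ k := by exact_mod_cast hk0
  have hδ : 1 / (2 * (k : ℝ) + 1) < min (min δ₁ δ₂) (min 1 (ε / (4 * A))) := by
    rw [one_div, inv_lt_comm₀ (by positivity) hpos, ← one_div]
    linarith
  obtain ⟨Θ, hΘ, hsad⟩ := h k hk1
  set δ : ℝ := 1 / (2 * (k : ℝ) + 1) with hδdef
  have hδ0 : 0 < δ := by positivity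
  have h1 : δ ≤ δ₁ := hδ.le.trans ((min_le_left _ _).trans (min_le_left _ _))
  have h2 : δ ≤ δ₂ := hδ.le.trans ((min_le_left _ _).trans (min_le_right _ _))
  have h3 : δ < 1 := hδ.trans_le ((min_le_right _ _).trans (min_le_left _ _))
  have h4 : δ < ε / (4 * A) := hδ.trans_le ((min_le_right _ _).trans (min_le_right _ _))
  have h5 : 4 * A * δ < ε := by
    rw [lt_div_iff₀ (by positivity)] at h4
    linarith
  have hδε : δ < ε := by nlinarith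
  obtain ⟨hadm, hsim⟩ := hsimple δ hδ0 h1 Θ hΘ
  have hR1 : 1 < √(1 + δ) := by
    rw [Real.lt_sqrt (by norm_num)]
    linarith
  refine ⟨√(1 + δ), gT Θ, hR1, lt_of_le_of_lt (sqrt_one_add_le hδ0) (by linarith), ?_,
    ⟨gT_contDiff hadm.smooth, gT_symm Θ, fun x _ v hv => gT_pos hadm x hv⟩, hsim,
    hnt δ hδ0 h2 Θ hΘ, fun f hf => no_convex_weak hadm hsad hR1 hf⟩
  intro x v
  refine (hΘ.mom_sub_le hA hδ0 h3.le x v).2.1.trans ?_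
  gcongr

/-- **Main theorem**, every dimension `n ≥ 3`. -/
theorem main_n (n : ℕ) (hn : 3 ≤ n) (ε : ℝ) (hε : 0 < ε) :
    ∃ (R : ℝ) (g : EuclideanSpace ℝ (Fin n) →
        EuclideanSpace ℝ (Fin n) →L[ℝ] EuclideanSpace ℝ (Fin n) →L[ℝ] ℝ),
      1 < R ∧ R < 1 + ε ∧ (∀ x v, |g x v v - ‖v‖ ^ 2| ≤ ε * ‖v‖ ^ 2) ∧
      IsRiemannianMetric R g ∧ IsSimple R g ∧
      (∀ (τ : ℝ) (γ γ' : ℝ → EuclideanSpace ℝ (Fin n)), IsGeodesicOn g γ γ' (Icc 0 τ) →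
        (∀ t ∈ Icc 0 τ, γ t ∈ closedBall (0 : EuclideanSpace ℝ (Fin n)) R) →
          (∀ t ∈ Icc 0 τ, g (γ t) (γ' t) (γ' t) = 1) → τ ≤ 5) ∧
      ∀ f : EuclideanSpace ℝ (Fin n) → ℝ, ContDiffOn ℝ 2 f (ball 0 R) →
        ∃ x ∈ ball (0 : EuclideanSpace ℝ (Fin n)) R, ∃ v, v ≠ 0 ∧ hessian g f x v v ≤ 0 := by
  have hij : (⟨0, by omega⟩ : Fin n) ≠ ⟨1, by omega⟩ := by simp
  have hil : (⟨0, by omega⟩ : Fin n) ≠ ⟨2, by omega⟩ := by simp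
  have hjl : (⟨1, by omega⟩ : Fin n) ≠ ⟨2, by omega⟩ := by simp
  have : Nonempty (Fin n) := ⟨⟨0, by omega⟩⟩
  obtain ⟨A, hA, hshift⟩ := Gen.exists_shift (Gen.goodFamily hij) 200
  exact main_of_fields A hA (fun k hk => ⟨_, hshift k, wsaddle hij hil hjl hk⟩) ε hε

end Pool.Agent.Lib_MP_a29272_n
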