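import Pool.Agent.Lib_MP_a29272_n.Calc
import Pool.Agent.Lib_MP_a29272_th.Theta
import Pool.Agent.Lib_MP_a29272_q1.Defs

/-!
The shift field of the counterexample in any dimension, for an arbitrary family `P` of homogeneous
functions with the Cauchy bounds and an arbitrary linear map `J` with `⟪x, J ∇P⟫ = 0`:
the bounds (`Shift`).
-/

open Set Filter Topology
open scoped ContDiff RealInnerProductSpace

open MP_a29272_th (chi chi_contDiff chi_zero chi_eq_zero chi_eq_one)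

noncomputable section

namespace Pool.Agent.Lib_MP_a29272_n.Gen

variable {E : Type} [NormedAddCommGroup E] [InnerProductSpace ℝ E] [FiniteDimensional ℝ E]

/-- the odd number `m = 2k + 1` -/
def mm (k : ℕ) : ℝ := 2 * (k : ℝ) + 1

theorem one_le_mm (k : ℕ) : 1 ≤ mm k := by
  have : (0 : ℝ) ≤ k := Nat.cast_nonneg k
  rw [mm]; linarith

/-- the field before the cut-off, `m = 2k + 1` -/
def PsiG (P : ℕ → E → ℝ) (J : E →L[ℝ] E) (c : ℝ) (k : ℕ) (x : E) : E :=
  -((1 / (8 * mm k ^ 2)) • (‖x‖ ^ 2 • gradient (P (2 * (2 * k + 1))) x -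
      (4 * mm k * P (2 * (2 * k + 1)) x) • x)) +
    (1 / (4 * mm k ^ 2)) • (‖x‖ ^ 2 • gradient (P (2 * k + 1)) x -
      (2 * mm k * P (2 * k + 1) x) • x) -
    (c / (mm k * (mm k + 1))) • J (gradient (P (k + 1)) x)

/-- the field -/
def ThetaG (P : ℕ → E → ℝ) (J : E →L[ℝ] E) (c : ℝ) (k : ℕ) (x : E) : E :=
  chi (mm k * (‖x‖ ^ 2 - 1)) • PsiG P J c k x

/-- what is needed of the family `P` -/
structure GoodFamily (P : ℕ → E → ℝ) (J : E →L[ℝ] E) : Prop where
  smooth : ∀ M, ContDiff ℝ ∞ (P M)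
  bound : ∃ K : ℝ, 0 ≤ K ∧ ∀ m : ℕ, 0 < m → ∀ M ≤ 2 * m, ∀ j ≤ 3, ∀ x : E, ‖x‖ ^ 2 ≤ 1 + 1 / m →
    ‖iteratedFDeriv ℝ j (P M) x‖ ≤ K * (3 * m) ^ j
  euler : ∀ M, ∀ x, fderiv ℝ (P M) x x = 2 * (M : ℝ) * P M x
  tang : ∀ M, ∀ x, ⟪x, J (gradient (P M) x)⟫ = 0

theorem mm_cast (k : ℕ) : mm k = ((2 * k + 1 : ℕ) : ℝ) := by
  rw [mm]; push_cast; ring

/-- each of the three families used is a symbol of order zero with three derivatives -/
theorem P_symbol {P : ℕ → E → ℝ} {J : E →L[ℝ] E} (hP : GoodFamily P J) (a : ℕ → ℕ)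
    (ha : ∀ k, a k ≤ 2 * (2 * k + 1)) : Sy mm 3 0 (fun k x => P (a k) x) := by
  obtain ⟨K, hK, h⟩ := hP.bound
  refine ⟨K * 27, by positivity, fun k => ⟨hP.smooth _, fun j hj x hx => ?_⟩⟩
  have h1 : |‖x‖ ^ 2 - 1| ≤ 1 / (4 * mm k) := hx
  have hm1 : 1 ≤ mm k := one_le_mm k
  have hm0 : 0 < mm k := by linarith
  have h2 : ‖x‖ ^ 2 ≤ 1 + 1 / ((2 * k + 1 : ℕ) : ℝ) := by
    rw [← mm_cast]
    have h3 := (abs_le.mp h1).2
    have h4 : 1 / (4 * mm k) ≤ 1 / mm k := by
      apply one_div_le_one_div_of_le hm0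
      linarith
    linarith
  refine (h (2 * k + 1) (by omega) (a k) (ha k) j hj x h2).trans ?_
  rw [← mm_cast, zero_add, mul_pow, ← mul_assoc]
  have h3 : (3 : ℝ) ^ j ≤ 27 := by
    calc (3 : ℝ) ^ j ≤ 3 ^ 3 := pow_le_pow_right₀ (by norm_num) hj
      _ = 27 := by norm_num
  have h5 : K * (3 : ℝ) ^ j ≤ K * 27 := mul_le_mul_of_nonneg_left h3 hK
  exact mul_le_mul_of_nonneg_right h5 (by positivity)

theorem inner_gradient {f : E → ℝ} (x v : E) : ⟪gradient f x, v⟫ = fderiv ℝ f x v := by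
  rw [gradient, InnerProductSpace.toDual_symm_apply]

/-- the field is orthogonal to the position vector -/
theorem inner_ThetaG {P : ℕ → E → ℝ} {J : E →L[ℝ] E} (hP : GoodFamily P J) (c : ℝ) (k : ℕ) (x : E) :
    ⟪x, ThetaG P J c k x⟫ = 0 := by
  have hm1 : 1 ≤ mm k := one_le_mm k
  have hm0 : mm k ≠ 0 := by positivity
  have e1 : ∀ M, ⟪x, gradient (P M) x⟫ = 2 * (M : ℝ) * P M x := by
    intro M
    rw [real_inner_comm, inner_gradient, hP.euler]
  have hc1 : (((2 * (2 * k + 1) : ℕ)) : ℝ) = 2 * mm k := by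
    rw [mm]; push_cast; ring
  have hc2 : (((2 * k + 1 : ℕ)) : ℝ) = mm k := (mm_cast k).symm
  rw [ThetaG, PsiG, inner_smul_right, inner_sub_right, inner_add_right, inner_neg_right,
    inner_smul_right, inner_smul_right, inner_smul_right, inner_sub_right, inner_sub_right,
    inner_smul_right, inner_smul_right, inner_smul_right, inner_smul_right, hP.tang, e1, e1,
    real_inner_self_eq_norm_sq, hc1, hc2]
  ring

/-- the field vanishes outside a thin shell -/
theorem ThetaG_eq_zero {P : ℕ → E → ℝ} {J : E →L[ℝ] E} {c : ℝ} {k : ℕ} {x : E}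
    (hx : 1 / (4 * mm k) ≤ |‖x‖ ^ 2 - 1|) : ThetaG P J c k x = 0 := by
  have hm1 : 1 ≤ mm k := one_le_mm k
  have hm0 : 0 < mm k := by linarith
  have h : chi (mm k * (‖x‖ ^ 2 - 1)) = 0 := by
    apply chi_eq_zero
    rw [abs_mul, abs_of_pos hm0]
    calc (1 / 4 : ℝ) = mm k * (1 / (4 * mm k)) := by field_simp
      _ ≤ _ := mul_le_mul_of_nonneg_left hx hm0.le
  rw [ThetaG, h]
  simp

/-- `m Θ` is a symbol of order zero, with two derivatives controlled -/
theorem ThetaG_symbol {P : ℕ → E → ℝ} {J : E →L[ℝ] E} (hP : GoodFamily P J) (c : ℝ) :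
    Sy mm 2 0 (fun k x => mm k • ThetaG P J c k x) := by
  have hs := one_le_mm
  have hA : Sy mm 3 0 (fun k x => P (2 * (2 * k + 1)) x) := P_symbol hP _ (fun k => le_rfl)
  have hB : Sy mm 3 0 (fun k x => P (2 * k + 1) x) := P_symbol hP _ (fun k => by omega)
  have hC : Sy mm 3 0 (fun k x => P (k + 1) x) := P_symbol hP _ (fun k => by omega)
  have hgA := Sy.div_s hs (by simpa using hA.gradient)
  have hgB := Sy.div_s hs (by simpa using hB.gradient)
  have hgC := Sy.div_s hs (by simpa using hC.gradient)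
  have hn : Sy mm 2 0 (fun (_ : ℕ) (x : E) => ‖x‖ ^ 2) := Sy.of_const hs (contDiff_norm_sq ℝ) 2
  have hid : Sy mm 2 0 (fun (_ : ℕ) (x : E) => x) := Sy.of_const hs contDiff_id 2
  have hchi : Sy mm 2 0 (fun k (x : E) => chi (mm k * (‖x‖ ^ 2 - 1))) :=
    Sy.cutoff hs chi_contDiff 2
  have hA2 : Sy mm 2 0 (fun k x => P (2 * (2 * k + 1)) x) := hA.mono (by norm_num)
  have hB2 : Sy mm 2 0 (fun k x => P (2 * k + 1) x) := hB.mono (by norm_num)
  have hcoef : ∀ k, |c * (mm k / (mm k + 1))| ≤ |c| := by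
    intro k
    have h1 := hs k
    rw [abs_mul, abs_of_nonneg (by positivity : 0 ≤ mm k / (mm k + 1))]
    have : mm k / (mm k + 1) ≤ 1 := by
      rw [div_le_one (by linarith)]; linarith
    nlinarith [abs_nonneg c]
  have t1 := (Sy.smul hs hn hgA).const_smul (-(1 / 8))
  have t2 := (Sy.smul hs hA2 hid).const_smul (1 / 2)
  have t3 := (Sy.smul hs hn hgB).const_smul (1 / 4)
  have t4 := (Sy.smul hs hB2 hid).const_smul (-(1 / 2))
  have t5 := ((hgC.clm_comp J).bdd_smul (abs_nonneg c) hcoef).const_smul (-1)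
  have h4 := Sy.smul hs hchi ((((t1.add t2).add t3).add t4).add t5)
  simp only [add_zero] at h4
  obtain ⟨C, hC, h4⟩ := h4
  refine ⟨C, hC, fun k => ?_⟩
  have hm1 : 1 ≤ mm k := one_le_mm k
  have hm0 : mm k ≠ 0 := by positivity
  have hm2 : mm k + 1 ≠ 0 := by positivity
  have h5 := h4 k
  beta_reduce at h5
  have e : (fun x => mm k • ThetaG P J c k x) = (fun x : E => chi (mm k * (‖x‖ ^ 2 - 1)) •
      (-(1 / 8 : ℝ) • ‖x‖ ^ 2 • (1 / mm k) • gradient (P (2 * (2 * k + 1))) x +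
        (1 / 2 : ℝ) • P (2 * (2 * k + 1)) x • x +
        (1 / 4 : ℝ) • ‖x‖ ^ 2 • (1 / mm k) • gradient (P (2 * k + 1)) x +
        -(1 / 2 : ℝ) • P (2 * k + 1) x • x +
        (-1 : ℝ) • (c * (mm k / (mm k + 1))) • J ((1 / mm k) • gradient (P (k + 1)) x))) := by
    funext x
    rw [ThetaG, smul_comm (mm k)]
    congr 1
    rw [PsiG, map_smul]
    match_scalars <;> field_simp <;> ring
  rw [← e] at h5
  exact h5

theorem ThetaG_contDiff {P : ℕ → E → ℝ} {J : E →L[ℝ] E} (hP : GoodFamily P J) (c : ℝ) (k : ℕ) :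
    ContDiff ℝ ∞ (ThetaG P J c k) := by
  have h := ((ThetaG_symbol hP c).contDiff k).const_smul (1 / mm k)
  have hm1 : 1 ≤ mm k := one_le_mm k
  have hM0 : mm k ≠ 0 := by positivity
  have e : (fun x => (1 / mm k) • mm k • ThetaG P J c k x) = ThetaG P J c k := by
    funext x
    rw [smul_smul, one_div, inv_mul_cancel₀ hM0, one_smul]
  rw [← e]
  exact h

/-- all derivatives vanish outside the shell -/
theorem ThetaG_iterated_zero {P : ℕ → E → ℝ} {J : E →L[ℝ] E} {c : ℝ} {k : ℕ} {x : E}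
    (hx : x ∉ Shell E (mm k)) (j : ℕ) : iteratedFDeriv ℝ j (ThetaG P J c k) x = 0 := by
  have hlt : 1 / (4 * mm k) < |‖x‖ ^ 2 - 1| := not_le.mp hx
  have hev : ThetaG P J c k =ᶠ[𝓝 x] fun _ => 0 := by
    have hc : Continuous fun y : E => |‖y‖ ^ 2 - 1| := by fun_prop
    filter_upwards [hc.continuousAt.eventually (lt_mem_nhds hlt)] with y hy
    exact ThetaG_eq_zero hy.le
  rw [hev.iteratedFDeriv ℝ j |>.eq_of_nhds]
  simp [iteratedFDeriv_fun_zero]

/-- **the bounds**: the fields are shift fields at scale `1 / m`, with a common constant -/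
theorem exists_shift {P : ℕ → E → ℝ} {J : E →L[ℝ] E} (hP : GoodFamily P J) (c : ℝ) :
    ∃ A : ℝ, 1 ≤ A ∧ ∀ k : ℕ, Pool.Agent.Lib_MP_a29272_q1.Shift A (1 / mm k) (ThetaG P J c k) := by
  obtain ⟨C, hC, h⟩ := ThetaG_symbol hP c
  have key : ∀ k : ℕ, ∀ j ≤ 2, ∀ x : E,
      ‖iteratedFDeriv ℝ j (ThetaG P J c k) x‖ ≤ C * mm k ^ j / mm k := by
    intro k j hj x
    have hm1 : 1 ≤ mm k := one_le_mm k
    have hM0 : 0 < mm k := by linarith
    by_cases hx : x ∈ Shell E (mm k)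
    · have h1 := (h k).2 j hj x hx
      have e : iteratedFDeriv ℝ j (fun x => mm k • ThetaG P J c k x) x
          = mm k • iteratedFDeriv ℝ j (ThetaG P J c k) x :=
        iteratedFDeriv_const_smul_apply'
          (((ThetaG_contDiff hP c k).of_le (nat_le_inf j)).contDiffAt)
      rw [e, norm_smul, Real.norm_eq_abs, abs_of_pos hM0, zero_add] at h1
      rw [le_div_iff₀ hM0, mul_comm]
      exact h1
    · rw [ThetaG_iterated_zero hx, norm_zero]
      positivity
  refine ⟨C + 1, by linarith, fun k => ?_⟩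
  have hm1 : 1 ≤ mm k := one_le_mm k
  have hM0 : 0 < mm k := by linarith
  refine ⟨ThetaG_contDiff hP c k, inner_ThetaG hP c k, fun x hx => ?_, fun x => ?_, fun x => ?_,
    fun x => ?_⟩
  · refine ThetaG_eq_zero (le_trans ?_ hx.le)
    rw [div_div, div_le_div_iff₀ (by positivity) (by positivity)]
    linarith
  · have h1 := key k 0 (by norm_num) x
    rw [norm_iteratedFDeriv_zero, pow_zero, mul_one] at h1
    rw [mul_one_div]
    exact h1.trans (by gcongr; linarith)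
  · have h1 := key k 1 (by norm_num) x
    rw [norm_iteratedFDeriv_one, pow_one, mul_div_assoc, div_self hM0.ne', mul_one] at h1
    linarith
  · have h1 := key k 2 (by norm_num) x
    have e : ‖_root_.fderiv ℝ (_root_.fderiv ℝ (ThetaG P J c k)) x‖
        = ‖iteratedFDeriv ℝ 2 (ThetaG P J c k) x‖ := by
      rw [← norm_iteratedFDeriv_one, norm_iteratedFDeriv_fderiv]
    rw [e, div_div_eq_mul_div, div_one]
    refine h1.trans ?_
    rw [pow_two, ← mul_assoc, mul_div_assoc, div_self hM0.ne', mul_one]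
    gcongr
    linarith

/-- on the unit sphere the cut-off is one -/
theorem ThetaG_sphere {P : ℕ → E → ℝ} {J : E →L[ℝ] E} {c : ℝ} {k : ℕ} {x : E} (hx : ‖x‖ = 1) :
    ThetaG P J c k x = -((1 / (8 * mm k ^ 2)) • (gradient (P (2 * (2 * k + 1))) x -
      (4 * mm k * P (2 * (2 * k + 1)) x) • x)) +
    (1 / (4 * mm k ^ 2)) • (gradient (P (2 * k + 1)) x - (2 * mm k * P (2 * k + 1) x) • x) -
    (c / (mm k * (mm k + 1))) • J (gradient (P (k + 1)) x) := by
  rw [ThetaG, hx, one_pow, sub_self, mul_zero, chi_zero, one_smul, PsiG, hx, one_pow, one_smul,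
    one_smul]

end Pool.Agent.Lib_MP_a29272_n.Gen
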