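import Pool.Agent.Lib_MP_a29272_n.ThetaG
import Pool.Agent.Lib_MP_a29272_n.Form

/-! The values of the shift field on the unit sphere. -/

namespace Pool.Agent.Lib_MP_a29272_n

open scoped RealInnerProductSpace
open Pool.Agent.Lib_MP_a29272_n.Gen (mm one_le_mm mm_cast ThetaG ThetaG_sphere inner_gradient)

section Value

variable {E : Type} [NormedAddCommGroup E] [InnerProductSpace ℝ E] [FiniteDimensional ℝ E]

/-- what the value of the shift field needs of the family `P` -/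
structure PData (u v : E) (P : ℕ → E → ℝ) : Prop where
  diff : ∀ M, Differentiable ℝ (P M)
  euler : ∀ M x, fderiv ℝ (P M) x x = 2 * (M : ℝ) * P M x
  symm : ∀ M x y, ‖x‖ = ‖y‖ → ⟪u, x⟫ ^ 2 + ⟪v, x⟫ ^ 2 = ⟪u, y⟫ ^ 2 + ⟪v, y⟫ ^ 2 → P M x = P M y
  val : ∀ M x θ, ‖x‖ = 1 → ⟪u, x⟫ ^ 2 + ⟪v, x⟫ ^ 2 = Real.sin θ ^ 2 →
    P M x = Real.cos (2 * (M : ℝ) * θ)

/-- an even differentiable function has derivative zero -/
lemma deriv_even {h : ℝ → ℝ} {h' : ℝ} (hd : HasDerivAt h h' 0) (he : ∀ t, h (-t) = h t) :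
    h' = 0 := by
  have h1 : HasDerivAt (fun t => h (-t)) (-h') 0 := by
    have h2 : HasDerivAt (fun t : ℝ => -t) (-1) 0 := (hasDerivAt_id 0).neg
    have h3 : HasDerivAt h h' (-(0 : ℝ)) := by simpa using hd
    have := h3.comp (0 : ℝ) h2
    simpa [Function.comp_def] using this
  have h4 : HasDerivAt h (-h') 0 := by
    refine h1.congr_of_eventuallyEq ?_
    filter_upwards with t
    exact (he t).symm
  have := h4.unique hd
  linarith

/-- the frame `(u, v)` turned so that `ζ` is the direction of the `z`-part -/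
structure Frame (u v ζ F η : E) : Prop where
  ortho : Ortho ζ F η
  zsq : ∀ x, ⟪u, x⟫ ^ 2 + ⟪v, x⟫ ^ 2 = ⟪ζ, x⟫ ^ 2 + ⟪F, x⟫ ^ 2
  rot : ∀ x, ⟪u, x⟫ • v - ⟪v, x⟫ • u = ⟪ζ, x⟫ • F - ⟪F, x⟫ • ζ

omit [FiniteDimensional ℝ E] in
theorem Frame.turn {u v ζ F η : E} (h : Frame u v ζ F η) (t : ℝ) :
    Frame u v (Real.cos t • ζ + Real.sin t • F) (-Real.sin t • ζ + Real.cos t • F) η := by
  have h1 := Real.sin_sq_add_cos_sq t
  have o := h.ortho
  have o21 : ⟪F, ζ⟫ = 0 := by rw [real_inner_comm]; exact o.o12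
  refine ⟨⟨?_, ?_, o.n3, ?_, ?_, ?_⟩, fun x => ?_, fun x => ?_⟩
  · simp only [inner_add_left, inner_add_right, real_inner_smul_left, real_inner_smul_right, o.n1,
      o.n2, o.o12, o21]
    linear_combination h1
  · simp only [inner_add_left, inner_add_right, real_inner_smul_left, real_inner_smul_right, o.n1,
      o.n2, o.o12, o21]
    linear_combination h1
  · simp only [inner_add_left, inner_add_right, real_inner_smul_left, real_inner_smul_right, o.n1,
      o.n2, o.o12, o21]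
    ring
  · simp only [inner_add_left, real_inner_smul_left, o.o13, o.o23]
    ring
  · simp only [inner_add_left, real_inner_smul_left, o.o13, o.o23]
    ring
  · rw [h.zsq]
    simp only [inner_add_left, real_inner_smul_left]
    linear_combination (-(⟪ζ, x⟫ ^ 2 + ⟪F, x⟫ ^ 2)) * h1
  · rw [h.rot]
    simp only [inner_add_left, real_inner_smul_left]
    match_scalars
    · linear_combination (-⟪ζ, x⟫) * h1
    · linear_combination ⟪F, x⟫ * h1

omit [FiniteDimensional ℝ E] in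
theorem Ortho.inner1 {ζ F η : E} (o : Ortho ζ F η) (A B C : ℝ) :
    ⟪ζ, vec3 ζ F η A B C⟫ = A := by
  simp only [vec3, inner_add_right, real_inner_smul_right, o.n1, o.o12, o.o13]
  ring

omit [FiniteDimensional ℝ E] in
theorem Ortho.inner2 {ζ F η : E} (o : Ortho ζ F η) (A B C : ℝ) :
    ⟪F, vec3 ζ F η A B C⟫ = B := by
  have o21 : ⟪F, ζ⟫ = 0 := by rw [real_inner_comm]; exact o.o12
  simp only [vec3, inner_add_right, real_inner_smul_right, o.n2, o21, o.o23]
  ring

omit [FiniteDimensional ℝ E] in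
theorem inner_vec3_left (ζ F η : E) (A B C : ℝ) (w : E) :
    ⟪vec3 ζ F η A B C, w⟫ = A * ⟪ζ, w⟫ + B * ⟪F, w⟫ + C * ⟪η, w⟫ := by
  simp only [vec3, inner_add_left, real_inner_smul_left]

omit [FiniteDimensional ℝ E] in
theorem Ortho.norm_eq_one {ζ F η : E} (o : Ortho ζ F η) (θ : ℝ) :
    ‖vec3 ζ F η (Real.sin θ) 0 (Real.cos θ)‖ = 1 := by
  have h : ⟪vec3 ζ F η (Real.sin θ) 0 (Real.cos θ), vec3 ζ F η (Real.sin θ) 0 (Real.cos θ)⟫ = 1 := by
    rw [o.inner_vec3]
    linear_combination Real.sin_sq_add_cos_sq θ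
  rw [real_inner_self_eq_norm_sq] at h
  nlinarith [norm_nonneg (vec3 ζ F η (Real.sin θ) 0 (Real.cos θ))]

omit [FiniteDimensional ℝ E] in
theorem P_latitude {u v ζ F η : E} (h : Frame u v ζ F η) {P : ℕ → E → ℝ} (hP : PData u v P)
    (M : ℕ) (θ : ℝ) : P M (vec3 ζ F η (Real.sin θ) 0 (Real.cos θ)) =
      Real.cos (2 * (M : ℝ) * θ) := by
  refine hP.val M _ θ (h.ortho.norm_eq_one θ) ?_
  rw [h.zsq, h.ortho.inner1, h.ortho.inner2]
  ring

omit [FiniteDimensional ℝ E] in
/-- the differential of `P M` at the point of latitude `σ` -/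
theorem fderiv_value {u v ζ F η : E} (h : Frame u v ζ F η) {P : ℕ → E → ℝ} (hP : PData u v P)
    (M : ℕ) (σ : ℝ) (w : E) :
    fderiv ℝ (P M) (vec3 ζ F η (Real.sin σ) 0 (Real.cos σ)) w =
      (2 * M * Real.cos (2 * M * σ) * Real.sin σ -
          2 * M * Real.sin (2 * M * σ) * Real.cos σ) * ⟪ζ, w⟫ +
        (2 * M * Real.cos (2 * M * σ) * Real.cos σ +
          2 * M * Real.sin (2 * M * σ) * Real.sin σ) * ⟪η, w⟫ := by
  have o := h.ortho
  have hsc := Real.sin_sq_add_cos_sq σ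
  set p := vec3 ζ F η (Real.sin σ) 0 (Real.cos σ) with hp
  set e := vec3 ζ F η (Real.cos σ) 0 (-Real.sin σ) with he
  set D := fderiv ℝ (P M) p with hD
  have hDp : D p = 2 * M * Real.cos (2 * M * σ) := by
    rw [hD, hP.euler, hp, P_latitude h hP]
  have hDe : D e = -(2 * M) * Real.sin (2 * M * σ) := by
    have h1 : HasDerivAt (fun t : ℝ => vec3 ζ F η (Real.sin (σ + 1 * t)) 0 (Real.cos (σ + 1 * t)))
        e 0 := by
      have hl := hasDerivAt_lin σ 1 0
      refine (hasDerivAt_vec3 ζ F η hl.sin (hasDerivAt_const (0 : ℝ) (0 : ℝ)) hl.cos).congr_deriv ?_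
      simp only [mul_zero, add_zero, mul_one, he]
    have h2 : HasDerivAt (fun t : ℝ => P M (vec3 ζ F η (Real.sin (σ + 1 * t)) 0
        (Real.cos (σ + 1 * t)))) (D e) 0 := by
      have h3 : HasFDerivAt (P M) D
          (vec3 ζ F η (Real.sin (σ + 1 * 0)) 0 (Real.cos (σ + 1 * 0))) := by
        simpa [hp] using (hP.diff M p).hasFDerivAt
      exact h3.comp_hasDerivAt (0 : ℝ) h1
    have h4 : (fun t : ℝ => P M (vec3 ζ F η (Real.sin (σ + 1 * t)) 0
        (Real.cos (σ + 1 * t)))) = fun t => Real.cos (2 * M * (σ + 1 * t)) := by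
      funext t
      exact P_latitude h hP M _
    rw [h4] at h2
    have h5 := ((hasDerivAt_lin σ 1 0).const_mul (2 * (M : ℝ))).cos
    have h6 := h2.unique h5
    rw [h6]
    simp only [mul_zero, add_zero, mul_one]
    ring
  have hζ : ζ = Real.sin σ • p + Real.cos σ • e := by
    rw [hp, he]
    simp only [vec3]
    match_scalars
    · linear_combination -hsc
    · ring
    · ring
  have hη : η = Real.cos σ • p - Real.sin σ • e := by
    rw [hp, he]
    simp only [vec3]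
    match_scalars <;> first | ring1 | linear_combination -hsc
  have hDζ : D ζ = Real.sin σ * (2 * M * Real.cos (2 * M * σ)) +
      Real.cos σ * (-(2 * M) * Real.sin (2 * M * σ)) := by
    conv_lhs => rw [hζ]
    rw [map_add, map_smul, map_smul, hDp, hDe, smul_eq_mul, smul_eq_mul]
  have hDη : D η = Real.cos σ * (2 * M * Real.cos (2 * M * σ)) -
      Real.sin σ * (-(2 * M) * Real.sin (2 * M * σ)) := by
    conv_lhs => rw [hη]
    rw [map_sub, map_smul, map_smul, hDp, hDe, smul_eq_mul, smul_eq_mul]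
  have o31 : ⟪η, ζ⟫ = 0 := by rw [real_inner_comm]; exact o.o13
  set w' := w - ⟪ζ, w⟫ • ζ - ⟪η, w⟫ • η with hw'
  have h1 : ⟪ζ, w'⟫ = 0 := by
    rw [hw']
    simp only [inner_sub_right, real_inner_smul_right, o.n1, o.o13]
    ring
  have h2 : ⟪η, w'⟫ = 0 := by
    rw [hw']
    simp only [inner_sub_right, real_inner_smul_right, o.n3, o31]
    ring
  have h3 : ⟪p, w'⟫ = 0 := by
    rw [hp, inner_vec3_left, h1, h2]
    ring
  have h4 : D w' = 0 := by
    have g1 : HasDerivAt (fun t : ℝ => p + t • w') w' 0 := by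
      simpa using ((hasDerivAt_id (0 : ℝ)).smul_const w').const_add p
    have g2 : HasDerivAt (fun t : ℝ => P M (p + t • w')) (D w') 0 := by
      have g3 : HasFDerivAt (P M) D (p + (0 : ℝ) • w') := by
        simpa using (hP.diff M p).hasFDerivAt
      exact g3.comp_hasDerivAt (0 : ℝ) g1
    refine deriv_even g2 fun t => hP.symm M _ _ ?_ ?_
    · have a1 : ∀ r : ℝ, ‖p + r • w'‖ ^ 2 = ‖p‖ ^ 2 + r ^ 2 * ‖w'‖ ^ 2 := by
        intro r
        rw [norm_add_sq_real, real_inner_smul_right, h3, norm_smul, mul_pow, Real.norm_eq_abs,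
          sq_abs]
        ring
      have a2 : ‖p + (-t) • w'‖ ^ 2 = ‖p + t • w'‖ ^ 2 := by
        rw [a1, a1]
        ring
      nlinarith [norm_nonneg (p + (-t) • w'), norm_nonneg (p + t • w')]
    · rw [h.zsq, h.zsq]
      simp only [inner_add_right, real_inner_smul_right, h1]
      rw [hp, o.inner1, o.inner2]
      ring
  have h5 : w = w' + ⟪ζ, w⟫ • ζ + ⟪η, w⟫ • η := by
    rw [hw']
    abel
  have h6 : D w = D w' + ⟪ζ, w⟫ * D ζ + ⟪η, w⟫ * D η := by
    conv_lhs => rw [h5]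
    rw [map_add, map_add, map_smul, map_smul, smul_eq_mul, smul_eq_mul]
  rw [h6, h4, hDζ, hDη]
  ring

/-- the gradient of `P M` at the point of latitude `σ` -/
theorem grad_value {u v ζ F η : E} (h : Frame u v ζ F η) {P : ℕ → E → ℝ} (hP : PData u v P)
    (M : ℕ) (σ : ℝ) :
    gradient (P M) (vec3 ζ F η (Real.sin σ) 0 (Real.cos σ)) =
      vec3 ζ F η (2 * M * Real.cos (2 * M * σ) * Real.sin σ -
          2 * M * Real.sin (2 * M * σ) * Real.cos σ) 0
        (2 * M * Real.cos (2 * M * σ) * Real.cos σ +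
          2 * M * Real.sin (2 * M * σ) * Real.sin σ) := by
  refine ext_inner_right ℝ fun w => ?_
  rw [inner_gradient, fderiv_value h hP, inner_vec3_left]
  ring

/-- the radial profile -/
noncomputable def aF (k : ℕ) (σ : ℝ) : ℝ :=
  (Real.sin (4 * mm k * σ) - Real.sin (2 * mm k * σ)) / (2 * mm k)

/-- the rotational profile -/
noncomputable def bF (c : ℝ) (k : ℕ) (σ : ℝ) : ℝ := c / mm k * Real.sin (mm k * σ)

/-- the value of the shift field at the point of latitude `σ` -/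
theorem theta_value0 {u v ζ F η : E} (h : Frame u v ζ F η) {P : ℕ → E → ℝ} (hP : PData u v P)
    {J : E →L[ℝ] E} (hJ : ∀ x, J x = ⟪u, x⟫ • v - ⟪v, x⟫ • u) (c : ℝ) (k : ℕ) (σ : ℝ) :
    ThetaG P J c k (vec3 ζ F η (Real.sin σ) 0 (Real.cos σ)) =
      vec3 ζ F η (aF k σ * Real.cos σ) (bF c k σ) (-aF k σ * Real.sin σ) := by
  have o := h.ortho
  have hm1 : 1 ≤ mm k := one_le_mm k
  have hm0 : mm k ≠ 0 := by positivity
  have hm2 : mm k + 1 ≠ 0 := by positivity
  have c1 : (((2 * (2 * k + 1) : ℕ)) : ℝ) = 2 * mm k := by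
    rw [mm]; push_cast; ring
  have c2 : (((2 * k + 1 : ℕ)) : ℝ) = mm k := (mm_cast k).symm
  have c3 : (((k + 1 : ℕ)) : ℝ) = (mm k + 1) / 2 := by
    rw [mm]; push_cast; ring
  rw [ThetaG_sphere (o.norm_eq_one σ), hJ, h.rot, grad_value h hP, grad_value h hP,
    grad_value h hP, o.inner1, o.inner2, P_latitude h hP, P_latitude h hP, c1, c2, c3]
  have e1 : Real.sin (mm k * σ) = Real.sin (2 * ((mm k + 1) / 2) * σ) * Real.cos σ -
      Real.cos (2 * ((mm k + 1) / 2) * σ) * Real.sin σ := by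
    rw [← Real.sin_sub]
    congr 1
    ring
  have e2 : (2 : ℝ) * (2 * mm k) * σ = 4 * mm k * σ := by ring
  simp only [vec3, aF, bF, e1, e2]
  match_scalars <;> field_simp <;> ring

/-- the value of the shift field on the sphere -/
theorem theta_value {u v ζ F η : E} (h : Frame u v ζ F η) {P : ℕ → E → ℝ} (hP : PData u v P)
    {J : E →L[ℝ] E} (hJ : ∀ x, J x = ⟪u, x⟫ • v - ⟪v, x⟫ • u) (c : ℝ) (k : ℕ) (σ τ : ℝ) :
    ThetaG P J c k (pt ζ F η σ τ) = vec3 ζ F η
      (aF k σ * Real.cos σ * Real.cos τ - bF c k σ * Real.sin τ)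
      (aF k σ * Real.cos σ * Real.sin τ + bF c k σ * Real.cos τ) (-aF k σ * Real.sin σ) := by
  have e1 : pt ζ F η σ τ = vec3 (Real.cos τ • ζ + Real.sin τ • F)
      (-Real.sin τ • ζ + Real.cos τ • F) η (Real.sin σ) 0 (Real.cos σ) := by
    simp only [pt, vec3]
    match_scalars <;> ring
  rw [e1, theta_value0 (h.turn τ) hP hJ]
  simp only [vec3]
  match_scalars <;> ring

end Value

end Pool.Agent.Lib_MP_a29272_n
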